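import Mathlib

/-!
The core dimension of a finite-dimensional module over a finite group through the rank of the norm element:
`rr X = dim X - |G| * rank (norm on X)`.
-/

set_option autoImplicit false
open CategoryTheory CategoryTheory.MonoidalCategory CategoryTheory.Limits

namespace Pool.Agent.Helper1_Core

noncomputable section

variable {k : Type} [Field k] {G : Type} [Group G] [Fintype G]

/-- `dim X - |G| * rank (norm)`. -/
def rr (X : Rep.{0} k G) : ℤ :=
  (Module.finrank k X.V : ℤ) - (Fintype.card G : ℤ) * (Module.finrank k (LinearMap.range X.ρ.norm) : ℤ)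

/-- Higman's criterion for relative projectivity with respect to the trivial subgroup. -/
def HP (X : Rep.{0} k G) : Prop :=
  ∃ θ : X.V →ₗ[k] X.V, ∀ x : X.V, ∑ g : G, X.ρ g (θ (X.ρ g⁻¹ x)) = x

lemma norm_apply' (X : Rep.{0} k G) (x : X.V) : X.ρ.norm x = ∑ g : G, X.ρ g x := by
  simp [Representation.norm]

/-- a short exact sequence -/
def SES (A P B : Rep.{0} k G) : Prop :=
  ∃ (i : A ⟶ P) (f : P ⟶ B), Function.Injective i.hom ∧ Function.Surjective f.hom ∧
    Function.Exact i.hom f.hom

lemma rr_congr {X Y : Rep.{0} k G} (e : X ≅ Y) : rr X = rr Y := by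
  let E : X.V ≃ₗ[k] Y.V := (Representation.equivOfIso e).toLinearEquiv
  have hE : ∀ x, E x = e.hom.hom x := fun x => rfl
  have h1 : Module.finrank k X.V = Module.finrank k Y.V := LinearEquiv.finrank_eq E
  have h2 : LinearMap.range Y.ρ.norm = (LinearMap.range X.ρ.norm).map (E : X.V →ₗ[k] Y.V) := by
    ext y
    constructor
    · rintro ⟨z, rfl⟩
      refine ⟨X.ρ.norm (E.symm z), ⟨_, rfl⟩, ?_⟩
      have : E (X.ρ.norm (E.symm z)) = Y.ρ.norm (E (E.symm z)) := by
        rw [norm_apply', norm_apply', map_sum]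
        refine Finset.sum_congr rfl fun g _ => ?_
        rw [hE, hE, Rep.hom_comm_apply]
      simpa using this
    · rintro ⟨_, ⟨z, rfl⟩, rfl⟩
      refine ⟨E z, ?_⟩
      change Y.ρ.norm (E z) = E (X.ρ.norm z)
      rw [norm_apply', norm_apply', map_sum]
      refine Finset.sum_congr rfl fun g _ => ?_
      rw [hE, hE, Rep.hom_comm_apply]
  have h3 : Module.finrank k (LinearMap.range Y.ρ.norm) = Module.finrank k (LinearMap.range X.ρ.norm) := by
    rw [h2]
    exact LinearEquiv.finrank_map_eq E _
  unfold rr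
  rw [h1, h3]

/-- a product of submodules as a product -/
def prodEq {V W : Type} [AddCommGroup V] [Module k V] [AddCommGroup W] [Module k W]
    (p : Submodule k V) (q : Submodule k W) : (p.prod q) ≃ₗ[k] p × q where
  toFun x := (⟨x.1.1, x.2.1⟩, ⟨x.1.2, x.2.2⟩)
  invFun x := ⟨(x.1.1, x.2.1), ⟨x.1.2, x.2.2⟩⟩
  map_add' _ _ := rfl
  map_smul' _ _ := rfl
  left_inv _ := rfl
  right_inv _ := rfl

/-- the direct sum, concretely -/
abbrev dsum (X Y : Rep.{0} k G) : Rep.{0} k G := Rep.of (X.ρ.prod Y.ρ)

lemma rk_dsum (X Y : Rep.{0} k G) [FiniteDimensional k X.V] [FiniteDimensional k Y.V] :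
    Module.finrank k (LinearMap.range (dsum X Y).ρ.norm) =
      Module.finrank k (LinearMap.range X.ρ.norm) + Module.finrank k (LinearMap.range Y.ρ.norm) := by
  have h2 : (dsum X Y).ρ.norm = LinearMap.prodMap X.ρ.norm Y.ρ.norm := by
    apply LinearMap.ext
    rintro ⟨x, y⟩
    rw [norm_apply']
    rw [LinearMap.prodMap_apply, norm_apply', norm_apply']
    have : ∀ g : G, (dsum X Y).ρ g (x, y) = (X.ρ g x, Y.ρ g y) := fun g => rfl
    simp_rw [this]
    rw [Prod.ext_iff]
    constructor
    · rw [Prod.fst_sum]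
    · rw [Prod.snd_sum]
  rw [h2, LinearMap.range_prodMap, ← Module.finrank_prod]
  exact LinearEquiv.finrank_eq (prodEq _ _)

lemma rk_congr {X Y : Rep.{0} k G} (e : X ≅ Y) : Module.finrank k (LinearMap.range Y.ρ.norm) =
    Module.finrank k (LinearMap.range X.ρ.norm) := by
  let E : X.V ≃ₗ[k] Y.V := (Representation.equivOfIso e).toLinearEquiv
  have h1 : Module.finrank k X.V = Module.finrank k Y.V := LinearEquiv.finrank_eq E
  have h2 := rr_congr e
  unfold rr at h2
  rw [h1] at h2
  have h3 : (0 : ℤ) < Fintype.card G := by exact_mod_cast Fintype.card_pos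
  have h4 : (Fintype.card G : ℤ) * (Module.finrank k (LinearMap.range X.ρ.norm) : ℤ) =
    (Fintype.card G : ℤ) * (Module.finrank k (LinearMap.range Y.ρ.norm) : ℤ) := by linarith
  have h5 := mul_left_cancel₀ h3.ne' h4
  exact_mod_cast h5.symm

lemma finrank_congr {X Y : Rep.{0} k G} (e : X ≅ Y) : Module.finrank k X.V = Module.finrank k Y.V :=
  LinearEquiv.finrank_eq (Representation.equivOfIso e).toLinearEquiv

lemma rr_dsum (X Y : Rep.{0} k G) [FiniteDimensional k X.V] [FiniteDimensional k Y.V] :
    rr (dsum X Y) = rr X + rr Y := by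
  have h1 : Module.finrank k (dsum X Y).V = Module.finrank k X.V + Module.finrank k Y.V :=
    Module.finrank_prod
  unfold rr
  rw [h1, rk_dsum]
  push_cast
  ring

end

end Pool.Agent.Helper1_Core
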