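import Pool.Agent.Helper1_Core.Basic

/-!
A nonzero stable subspace of a module over a finite `p`-group in characteristic `p` has a nonzero fixed vector.
-/

set_option autoImplicit false
open CategoryTheory CategoryTheory.MonoidalCategory CategoryTheory.Limits

namespace Pool.Agent.Helper1_Core

noncomputable section

lemma exists_fixed_aux {G : Type} [Group G] [Fintype G] {p : ℕ} [Fact p.Prime] (hG : IsPGroup p G)
    {V : Type} [AddCommGroup V] [Module (ZMod p) V] (σ : G →* AddMonoid.End V) (x : V) (hx0 : x ≠ 0) :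
    ∃ b : V, b ∈ Submodule.span (ZMod p) (Set.range fun g : G => σ g x) ∧ b ≠ 0 ∧ ∀ g, σ g b = b := by
  let A : Submodule (ZMod p) V := Submodule.span (ZMod p) (Set.range fun g : G => σ g x)
  have hfin : Module.Finite (ZMod p) A := Module.Finite.span_of_finite _ (Set.finite_range _)
  have hfin2 : Finite A := Module.finite_of_finite (ZMod p)
  have hA : ∀ g : G, ∀ a ∈ A, σ g a ∈ A := by
    intro g a ha
    induction ha using Submodule.span_induction with
    | mem y hy =>
      obtain ⟨h, rfl⟩ := hy
      exact Submodule.subset_span ⟨g * h, by simp⟩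
    | zero => rw [map_zero]; exact A.zero_mem
    | add a b _ _ ha hb => rw [map_add]; exact A.add_mem ha hb
    | smul c a _ ha =>
      have : σ g (c • a) = c • σ g a := ZMod.map_smul (σ g) c a
      rw [this]
      exact A.smul_mem c ha
  let _i : MulAction G A :=
    { smul := fun g a => ⟨σ g a.1, hA g a.1 a.2⟩
      one_smul := fun a => by
        apply Subtype.ext
        change σ 1 a.1 = a.1
        simp
      mul_smul := fun g h a => by
        apply Subtype.ext
        change σ (g * h) a.1 = σ g (σ h a.1)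
        simp }
  have hsm : ∀ (g : G) (a : A), (g • a).1 = σ g a.1 := fun _ _ => rfl
  have hdvd : p ∣ Nat.card A := by
    have hxA : x ∈ A := Submodule.subset_span ⟨1, by simp⟩
    have hnt : Nontrivial A := ⟨⟨⟨x, hxA⟩, 0, fun h => hx0 (congrArg Subtype.val h)⟩⟩
    have hcard := Module.natCard_eq_pow_finrank (K := ZMod p) (V := A)
    rw [hcard, Nat.card_zmod]
    exact dvd_pow_self _ (Module.finrank_pos).ne'
  have h0 : (0 : A) ∈ MulAction.fixedPoints G A := by
    intro g
    apply Subtype.ext
    rw [hsm]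
    simp
  obtain ⟨b, hb, hb0⟩ := hG.exists_fixed_point_of_prime_dvd_card_of_fixed_point A hdvd h0
  refine ⟨b.1, b.2, fun h => hb0 (Subtype.ext h.symm), fun g => ?_⟩
  have := hb g
  exact congrArg Subtype.val this

variable {k : Type} [Field k] {G : Type} [Group G] [Fintype G]

lemma exists_fixed {p : ℕ} [Fact p.Prime] [CharP k p] (hG : IsPGroup p G) (X : Rep.{0} k G)
    (K : Submodule k X.V) (hK : ∀ g, ∀ x ∈ K, X.ρ g x ∈ K) (hne : K ≠ ⊥) :
    ∃ x ∈ K, x ≠ 0 ∧ ∀ g, X.ρ g x = x := by
  obtain ⟨x, hx, hx0⟩ := (Submodule.ne_bot_iff _).1 hne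
  have hp : ∀ v : X.V, p • v = 0 := by
    intro v
    have : ((p : k)) • v = 0 := by rw [CharP.cast_eq_zero, zero_smul]
    rwa [Nat.cast_smul_eq_nsmul] at this
  let _i : Module (ZMod p) X.V := AddCommGroup.zmodModule hp
  let σ : G →* AddMonoid.End X.V :=
    { toFun := fun g => (X.ρ g).toAddMonoidHom
      map_one' := by
        ext v
        change X.ρ 1 v = v
        simp
      map_mul' := fun g h => by
        ext v
        change X.ρ (g * h) v = X.ρ g (X.ρ h v)
        simp }
  obtain ⟨b, hb, hb0, hbf⟩ := exists_fixed_aux hG σ x hx0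
  refine ⟨b, ?_, hb0, hbf⟩
  clear hbf hb0
  induction hb using Submodule.span_induction with
  | mem y hy =>
    obtain ⟨h, rfl⟩ := hy
    exact hK h x hx
  | zero => exact K.zero_mem
  | add a b _ _ ha hb => exact K.add_mem ha hb
  | smul c a _ ha =>
    obtain ⟨m, rfl⟩ := ZMod.natCast_zmod_surjective c
    rw [Nat.cast_smul_eq_nsmul]
    exact nsmul_mem ha m

end

end Pool.Agent.Helper1_Core
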