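import Pool.Agent.Helper1_Core.Split

/-!
Higman's criterion is equivalent to projectivity; the core dimension equals `rr`.
-/

set_option autoImplicit false
open CategoryTheory CategoryTheory.MonoidalCategory CategoryTheory.Limits

namespace Pool.Agent.Helper1_Core

noncomputable section

variable {k : Type} [Field k] {G : Type} [Group G] [Fintype G]

lemma HP_congr {X Y : Rep.{0} k G} (e : X ≅ Y) (h : HP X) : HP Y := by
  obtain ⟨θ, hθ⟩ := h
  refine ⟨e.hom.hom.toLinearMap ∘ₗ θ ∘ₗ e.inv.hom.toLinearMap, fun y => ?_⟩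
  have h1 : ∀ g : G, Y.ρ g ((e.hom.hom.toLinearMap ∘ₗ θ ∘ₗ e.inv.hom.toLinearMap) (Y.ρ g⁻¹ y)) =
      e.hom.hom (X.ρ g (θ (X.ρ g⁻¹ (e.inv.hom y)))) := by
    intro g
    change Y.ρ g (e.hom.hom (θ (e.inv.hom (Y.ρ g⁻¹ y)))) = _
    rw [Rep.hom_comm_apply, Rep.hom_comm_apply]
  rw [Finset.sum_congr rfl (fun g _ => h1 g), ← map_sum, hθ]
  exact Rep.hom_inv_apply _ _ e y

lemma HP_fst {X Y : Rep.{0} k G} (h : HP (dsum X Y)) : HP X := by
  obtain ⟨θ, hθ⟩ := h
  refine ⟨LinearMap.fst k X.V Y.V ∘ₗ θ ∘ₗ LinearMap.inl k X.V Y.V, fun x => ?_⟩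
  have h1 : ∀ g : G, X.ρ g ((LinearMap.fst k X.V Y.V ∘ₗ θ ∘ₗ LinearMap.inl k X.V Y.V) (X.ρ g⁻¹ x)) =
      LinearMap.fst k X.V Y.V ((dsum X Y).ρ g (θ ((dsum X Y).ρ g⁻¹ (x, 0)))) := by
    intro g
    have h2 : (dsum X Y).ρ g⁻¹ (x, 0) = (X.ρ g⁻¹ x, 0) := by
      change (X.ρ g⁻¹ x, Y.ρ g⁻¹ 0) = _
      rw [map_zero]
    rw [h2]
    rfl
  rw [Finset.sum_congr rfl (fun g _ => h1 g), ← map_sum, hθ]
  rfl

lemma HP_dsum {X Y : Rep.{0} k G} (hX : HP X) (hY : HP Y) : HP (dsum X Y) := by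
  obtain ⟨θ, hθ⟩ := hX
  obtain ⟨η, hη⟩ := hY
  refine ⟨LinearMap.prodMap θ η, ?_⟩
  rintro ⟨x, y⟩
  have h1 : ∀ g : G, (dsum X Y).ρ g ((LinearMap.prodMap θ η) ((dsum X Y).ρ g⁻¹ (x, y))) =
      (X.ρ g (θ (X.ρ g⁻¹ x)), Y.ρ g (η (Y.ρ g⁻¹ y))) := fun g => rfl
  rw [Finset.sum_congr rfl (fun g _ => h1 g)]
  rw [Prod.ext_iff]
  constructor
  · rw [Prod.fst_sum]; exact hθ x
  · rw [Prod.snd_sum]; exact hη y

lemma HP_of_projective (X : Rep.{0} k G) [Projective X] : HP X := by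
  let p : Fr k G X.V ⟶ X := Rep.ofHom
    ⟨{ toFun := fun φ : G → X.V => ∑ g, X.ρ g (φ g)
       map_add' := fun a b => by simp [Finset.sum_add_distrib]
       map_smul' := fun c a => by simp [Finset.smul_sum] }, fun g => by
      apply LinearMap.ext
      intro φ
      change (∑ h, X.ρ h ((φ : G → X.V) (g⁻¹ * h))) = X.ρ g (∑ h, X.ρ h ((φ : G → X.V) h))
      rw [map_sum]
      refine Fintype.sum_equiv (Equiv.mulLeft g⁻¹) _ _ (fun h => ?_)
      change X.ρ h ((φ : G → X.V) (g⁻¹ * h)) = X.ρ g (X.ρ (g⁻¹ * h) ((φ : G → X.V) (g⁻¹ * h)))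
      rw [← Module.End.mul_apply, ← map_mul]
      simp⟩
  have hp : ∀ φ : G → X.V, p.hom φ = ∑ g, X.ρ g (φ g) := fun _ => rfl
  have hsurj : Function.Surjective p.hom := by
    classical
    intro x
    refine ⟨(Pi.single (1 : G) x : G → X.V), ?_⟩
    rw [hp, Finset.sum_eq_single (1 : G)]
    · simp
    · intro g _ hg
      rw [Pi.single_eq_of_ne hg, map_zero]
    · simp
  have hepi : Epi p := (Rep.epi_iff_surjective p).2 hsurj
  let s : X ⟶ Fr k G X.V := Projective.factorThru (𝟙 X) p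
  have hs : s ≫ p = 𝟙 X := Projective.factorThru_comp _ _
  have hs' : ∀ x : X.V, p.hom (s.hom x) = x := by
    intro x
    have := congrArg (fun f => f.hom x) hs
    simpa using this
  refine ⟨{ toFun := fun x => (s.hom x : G → X.V) 1
            map_add' := fun a b => by rw [map_add]; rfl
            map_smul' := fun c a => by rw [map_smul]; rfl }, fun x => ?_⟩
  have h1 : ∀ g : G, (s.hom (X.ρ g⁻¹ x) : G → X.V) 1 = (s.hom x : G → X.V) g := by
    intro g
    rw [Rep.hom_comm_apply, Fr_apply]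
    simp
  change ∑ g, X.ρ g ((s.hom (X.ρ g⁻¹ x) : G → X.V) 1) = x
  simp_rw [h1]
  rw [← hp, hs']

lemma projective_of_HP {X : Rep.{0} k G} (h : HP X) : Projective X := by
  obtain ⟨θ, hθ⟩ := h
  constructor
  intro E Y f e he
  have hsurj : Function.Surjective e.hom := (Rep.epi_iff_surjective e).1 he
  obtain ⟨s, hs⟩ : ∃ s : Y.V →ₗ[k] E.V, e.hom.toLinearMap ∘ₗ s = LinearMap.id :=
    LinearMap.exists_rightInverse_of_surjective _ (LinearMap.range_eq_top.2 hsurj)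
  have hs' : ∀ y, e.hom (s y) = y := fun y => LinearMap.congr_fun hs y
  let F : X.V →ₗ[k] E.V :=
    { toFun := fun x => ∑ g, E.ρ g (s (f.hom (θ (X.ρ g⁻¹ x))))
      map_add' := fun a b => by simp [Finset.sum_add_distrib]
      map_smul' := fun c a => by simp [Finset.smul_sum] }
  refine ⟨Rep.ofHom ⟨F, fun g => ?_⟩, ?_⟩
  · apply LinearMap.ext
    intro x
    change ∑ h, E.ρ h (s (f.hom (θ (X.ρ h⁻¹ (X.ρ g x))))) = E.ρ g (∑ h, E.ρ h (s (f.hom (θ (X.ρ h⁻¹ x)))))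
    rw [map_sum]
    refine Fintype.sum_equiv (Equiv.mulLeft g⁻¹) _ _ (fun h => ?_)
    change E.ρ h (s (f.hom (θ (X.ρ h⁻¹ (X.ρ g x))))) =
      E.ρ g (E.ρ (g⁻¹ * h) (s (f.hom (θ (X.ρ (g⁻¹ * h)⁻¹ x)))))
    have e1 : X.ρ (g⁻¹ * h)⁻¹ x = X.ρ h⁻¹ (X.ρ g x) := by
      rw [← Module.End.mul_apply, ← map_mul]
      simp
    have e2 : ∀ z, E.ρ g (E.ρ (g⁻¹ * h) z) = E.ρ h z := by
      intro z
      rw [← Module.End.mul_apply, ← map_mul]
      simp
    rw [e1, e2]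
  · ext1
    apply Representation.IntertwiningMap.ext
    apply LinearMap.ext
    intro x
    change e.hom (∑ h, E.ρ h (s (f.hom (θ (X.ρ h⁻¹ x))))) = f.hom x
    rw [map_sum]
    have h1 : ∀ h : G, e.hom (E.ρ h (s (f.hom (θ (X.ρ h⁻¹ x))))) = f.hom (X.ρ h (θ (X.ρ h⁻¹ x))) := by
      intro h
      rw [Rep.hom_comm_apply, hs', Rep.hom_comm_apply]
    rw [Finset.sum_congr rfl (fun h _ => h1 h), ← map_sum, hθ]

lemma norm_zero_of_rank {X : Rep.{0} k G} [FiniteDimensional k X.V]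
    (h : Module.finrank k (LinearMap.range X.ρ.norm) = 0) (x : X.V) : X.ρ.norm x = 0 := by
  have : LinearMap.range X.ρ.norm = ⊥ := Submodule.finrank_eq_zero.1 h
  have h2 : X.ρ.norm x ∈ LinearMap.range X.ρ.norm := ⟨x, rfl⟩
  rw [this] at h2
  exact h2

lemma HP_zero {p : ℕ} [Fact p.Prime] [CharP k p] (hG : IsPGroup p G) {X : Rep.{0} k G}
    [FiniteDimensional k X.V] (h : HP X) (h0 : Module.finrank k (LinearMap.range X.ρ.norm) = 0) :
    Module.finrank k X.V = 0 := by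
  obtain ⟨θ, hθ⟩ := h
  by_contra hne
  have hnt : (⊤ : Submodule k X.V) ≠ ⊥ := by
    intro h1
    apply hne
    have := finrank_top k X.V
    rw [h1, finrank_bot] at this
    exact this.symm
  obtain ⟨x, _, hx0, hx⟩ := exists_fixed hG X ⊤ (fun _ _ _ => trivial) hnt
  apply hx0
  rw [← hθ x]
  have : ∀ g : G, X.ρ g (θ (X.ρ g⁻¹ x)) = X.ρ g (θ x) := fun g => by rw [hx]
  rw [Finset.sum_congr rfl (fun g _ => this g), ← norm_apply']
  exact norm_zero_of_rank h0 _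

lemma rr_HP {p : ℕ} [Fact p.Prime] [CharP k p] (hG : IsPGroup p G) {X : Rep.{0} k G}
    [FiniteDimensional k X.V] (h : HP X) : rr X = 0 := by
  obtain ⟨N, W, i1, i2, hN, hW, ⟨e⟩, hr⟩ := exists_split hG X
  have h1 := rk_congr e
  rw [rk_dsum, finrank_norm_Fr] at h1
  have h2 : Module.finrank k (LinearMap.range N.ρ.norm) = 0 := by omega
  have h3 : HP N := HP_fst (HP_congr e h)
  have h4 := HP_zero hG h3 h2
  rw [rr_congr e, rr_dsum, rr_Fr]
  unfold rr
  rw [h4, h2]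
  simp

/-- The core dimension of a module over a `p`-group is `rr`. -/
theorem core_sInf {p : ℕ} [Fact p.Prime] [CharP k p] (hG : IsPGroup p G) (X : Rep.{0} k G)
    [FiniteDimensional k X.V] :
    ((sInf {d : ℕ | ∃ N P' : Rep.{0} k G, Projective P' ∧ Nonempty (X ≅ N ⊞ P') ∧
      Module.finrank k N.V = d} : ℕ) : ℤ) = rr X := by
  obtain ⟨N, W, i1, i2, hN, hW, ⟨e⟩, hr⟩ := exists_split hG X
  have h1 := rk_congr e
  rw [rk_dsum, finrank_norm_Fr] at h1
  have h2 : Module.finrank k (LinearMap.range N.ρ.norm) = 0 := by omega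
  have h3 : rr X = (Module.finrank k N.V : ℤ) := by
    rw [rr_congr e, rr_dsum, rr_Fr]
    unfold rr
    rw [h2]
    simp
  rw [h3]
  norm_cast
  apply le_antisymm
  · apply Nat.sInf_le
    obtain ⟨b⟩ := biprod_iso N (Fr k G W)
    exact ⟨N, Fr k G W, projective_of_HP (HP_Fr W), ⟨e ≪≫ b.symm⟩, rfl⟩
  · apply le_csInf
    · obtain ⟨b⟩ := biprod_iso N (Fr k G W)
      exact ⟨_, N, Fr k G W, projective_of_HP (HP_Fr W), ⟨e ≪≫ b.symm⟩, rfl⟩
    · rintro d ⟨N', P', hP', ⟨e'⟩, rfl⟩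
      obtain ⟨b⟩ := biprod_iso N' P'
      let e2 := e' ≪≫ b
      let E : X.V ≃ₗ[k] (dsum N' P').V := (Representation.equivOfIso e2).toLinearEquiv
      have hfd : FiniteDimensional k (dsum N' P').V := LinearEquiv.finiteDimensional E
      have hfd1 : FiniteDimensional k N'.V :=
        Module.Finite.of_surjective (LinearMap.fst k N'.V P'.V) LinearMap.fst_surjective
      have hfd2 : FiniteDimensional k P'.V :=
        Module.Finite.of_surjective (LinearMap.snd k N'.V P'.V) LinearMap.snd_surjective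
      have h4 := rr_congr e2
      rw [rr_dsum, rr_HP hG (HP_of_projective P'), h3] at h4
      unfold rr at h4
      have h5 : (0 : ℤ) ≤ (Fintype.card G : ℤ) * (Module.finrank k (LinearMap.range N'.ρ.norm) : ℤ) := by
        positivity
      have h6 : (Module.finrank k N.V : ℤ) ≤ Module.finrank k N'.V := by linarith
      exact_mod_cast h6

end

end Pool.Agent.Helper1_Core
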