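import Mathlib

/-!
A power series whose recurrence defect is the central binomial series is not rational.
-/

set_option autoImplicit false
open Finset

namespace Pool.Agent.Helper1_Core

/-- The convolution square of the central binomial coefficients is `4^n`. -/
lemma sum_centralBinom (n : ℕ) :
    ∑ p ∈ antidiagonal n, Nat.centralBinom p.1 * Nat.centralBinom p.2 = 4 ^ n := by
  induction n with
  | zero => simp
  | succ n ih =>
    have hsym : ∑ p ∈ antidiagonal (n+1), p.1 * (Nat.centralBinom p.1 * Nat.centralBinom p.2)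
        = ∑ p ∈ antidiagonal (n+1), p.2 * (Nat.centralBinom p.1 * Nat.centralBinom p.2) := by
      rw [← Finset.Nat.sum_antidiagonal_swap]
      apply Finset.sum_congr rfl
      intro p hp
      simp only [Prod.fst_swap, Prod.snd_swap]
      ring
    have h1 : (n+1) * ∑ p ∈ antidiagonal (n+1), Nat.centralBinom p.1 * Nat.centralBinom p.2
        = 2 * ∑ p ∈ antidiagonal (n+1), p.1 * (Nat.centralBinom p.1 * Nat.centralBinom p.2) := by
      rw [Finset.mul_sum, two_mul]
      conv_rhs => rw [hsym, ← hsym]
      nth_rewrite 2 [hsym]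
      rw [← Finset.sum_add_distrib]
      apply Finset.sum_congr rfl
      intro p hp
      rw [HasAntidiagonal.mem_antidiagonal] at hp
      rw [← hp]; ring
    have h2 : ∑ p ∈ antidiagonal (n+1), p.1 * (Nat.centralBinom p.1 * Nat.centralBinom p.2)
        = ∑ p ∈ antidiagonal n, (2 * (2 * p.1 + 1)) * (Nat.centralBinom p.1 * Nat.centralBinom p.2) := by
      rw [Finset.Nat.sum_antidiagonal_succ]
      simp only [zero_mul, zero_add]
      apply Finset.sum_congr rfl
      intro p hp
      rw [← mul_assoc, Nat.succ_mul_centralBinom_succ]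
      ring
    have hsym' : ∑ p ∈ antidiagonal n, p.1 * (Nat.centralBinom p.1 * Nat.centralBinom p.2)
        = ∑ p ∈ antidiagonal n, p.2 * (Nat.centralBinom p.1 * Nat.centralBinom p.2) := by
      rw [← Finset.Nat.sum_antidiagonal_swap]
      apply Finset.sum_congr rfl
      intro p hp
      simp only [Prod.fst_swap, Prod.snd_swap]
      ring
    have h3 : ∑ p ∈ antidiagonal n, (2 * (2 * p.1 + 1)) * (Nat.centralBinom p.1 * Nat.centralBinom p.2)
        = 2 * ((n + 1) * 4 ^ n) := by
      have : ∑ p ∈ antidiagonal n, (2 * (2 * p.1 + 1)) * (Nat.centralBinom p.1 * Nat.centralBinom p.2)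
          = 2 * (∑ p ∈ antidiagonal n, p.1 * (Nat.centralBinom p.1 * Nat.centralBinom p.2)
            + ∑ p ∈ antidiagonal n, p.1 * (Nat.centralBinom p.1 * Nat.centralBinom p.2)
            + ∑ p ∈ antidiagonal n, Nat.centralBinom p.1 * Nat.centralBinom p.2) := by
        rw [← Finset.sum_add_distrib, ← Finset.sum_add_distrib, Finset.mul_sum]
        apply Finset.sum_congr rfl
        intro p hp
        ring
      rw [this]
      congr 1
      nth_rewrite 2 [hsym']
      rw [← Finset.sum_add_distrib, ih]
      have : ∑ p ∈ antidiagonal n, (p.1 * (Nat.centralBinom p.1 * Nat.centralBinom p.2) +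
          p.2 * (Nat.centralBinom p.1 * Nat.centralBinom p.2)) = n * 4 ^ n := by
        rw [← ih, Finset.mul_sum]
        apply Finset.sum_congr rfl
        intro p hp
        rw [HasAntidiagonal.mem_antidiagonal] at hp
        rw [← hp]; ring
      rw [this]; ring
    rw [h2, h3] at h1
    have : (n+1) * ∑ p ∈ antidiagonal (n+1), Nat.centralBinom p.1 * Nat.centralBinom p.2
        = (n+1) * 4 ^ (n+1) := by
      rw [h1]; ring
    exact Nat.eq_of_mul_eq_mul_left (Nat.succ_pos n) this

open PowerSeries in
/-- If `c_0 = 1` and `c_{n+1} - 2 c_n` is `4 * C(n, n/2)` for even `n` and `0` for odd `n`, then the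
generating function of `c` is not rational. -/
theorem not_rational (c : ℕ → ℚ) (h0 : c 0 = 1)
    (heven : ∀ m : ℕ, c (2 * m + 1) - 2 * c (2 * m) = 4 * (Nat.centralBinom m : ℚ))
    (hodd : ∀ m : ℕ, c (2 * m + 2) - 2 * c (2 * m + 1) = 0)
    (P Q : Polynomial ℚ) (hQ : Q ≠ 0) (h : (Q : PowerSeries ℚ) * PowerSeries.mk c = (P : PowerSeries ℚ)) :
    False := by
  let w : ℕ → ℚ := fun n => if Even n then (Nat.centralBinom (n / 2) : ℚ) else 0
  have hw0 : ∀ m, w (2 * m) = Nat.centralBinom m := by
    intro m
    have : Even (2 * m) := even_two_mul m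
    simp [w, this]
  have hw1 : ∀ m, w (2 * m + 1) = 0 := by
    intro m
    have : ¬ Even (2 * m + 1) := by
      rw [Nat.not_even_iff_odd]
      exact odd_two_mul_add_one m
    simp [w, this]
  have hrec : ∀ n, c (n + 1) - 2 * c n = 4 * w n := by
    intro n
    rcases Nat.even_or_odd' n with ⟨m, rfl | rfl⟩
    · rw [heven, hw0]
    · rw [hw1, mul_zero]
      exact hodd m
  let W : PowerSeries ℚ := PowerSeries.mk w
  have hF : (1 - 2 * (X : PowerSeries ℚ)) * PowerSeries.mk c = 1 + 4 * (X : PowerSeries ℚ) * W := by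
    ext n
    cases n with
    | zero =>
      simp [sub_mul, mul_assoc, h0]
    | succ n =>
      have e1 : (PowerSeries.coeff (n + 1)) ((1 - 2 * (X : PowerSeries ℚ)) * PowerSeries.mk c) =
          c (n + 1) - 2 * c n := by
        have : (1 - 2 * (X : PowerSeries ℚ)) * PowerSeries.mk c =
          PowerSeries.mk c - X * (PowerSeries.C (2 : ℚ) * PowerSeries.mk c) := by
          have h2 : (PowerSeries.C (2 : ℚ) : PowerSeries ℚ) = 2 := map_ofNat _ 2
          rw [h2]; ring
        rw [this, map_sub, PowerSeries.coeff_mk, PowerSeries.coeff_succ_X_mul, PowerSeries.coeff_C_mul,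
          PowerSeries.coeff_mk]
      have e2 : (PowerSeries.coeff (n + 1)) (1 + 4 * (X : PowerSeries ℚ) * W) = 4 * w n := by
        have : (1 + 4 * (X : PowerSeries ℚ) * W) = 1 + X * (PowerSeries.C (4 : ℚ) * W) := by
          have h2 : (PowerSeries.C (4 : ℚ) : PowerSeries ℚ) = 4 := map_ofNat _ 4
          rw [h2]; ring
        rw [this, map_add, PowerSeries.coeff_succ_X_mul, PowerSeries.coeff_C_mul, PowerSeries.coeff_mk]
        simp [PowerSeries.coeff_one]
      rw [e1, e2, hrec]
  have hWW : W * W * (1 - 4 * (X : PowerSeries ℚ) ^ 2) = 1 := by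
    -- coefficients of `W * W`
    have hodd' : ∀ m, (PowerSeries.coeff (2 * m + 1)) (W * W) = 0 := by
      intro m
      rw [PowerSeries.coeff_mul]
      apply Finset.sum_eq_zero
      rintro ⟨a, b⟩ hab
      rw [HasAntidiagonal.mem_antidiagonal] at hab
      simp only at hab
      rw [PowerSeries.coeff_mk, PowerSeries.coeff_mk]
      rcases Nat.even_or_odd a with ha | ha
      · have hb : ¬ Even b := by
          intro hb
          have := ha.add hb
          rw [hab] at this
          exact (Nat.not_even_iff_odd.2 (odd_two_mul_add_one m)) this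
        simp [w, hb]
      · have : ¬ Even a := Nat.not_even_iff_odd.2 ha
        simp [w, this]
    have heven' : ∀ m, (PowerSeries.coeff (2 * m)) (W * W) = 4 ^ m := by
      intro m
      rw [PowerSeries.coeff_mul]
      have h1 : ∑ p ∈ antidiagonal (2 * m), (PowerSeries.coeff p.1) W * (PowerSeries.coeff p.2) W =
          ∑ p ∈ antidiagonal m, (Nat.centralBinom p.1 : ℚ) * (Nat.centralBinom p.2 : ℚ) := by
        symm
        apply Finset.sum_of_injOn (fun p => (2 * p.1, 2 * p.2))
        · rintro ⟨a, b⟩ _ ⟨a', b'⟩ _ hh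
          simp only [Prod.mk.injEq] at hh ⊢
          omega
        · rintro ⟨a, b⟩ hab
          rw [Finset.mem_coe, HasAntidiagonal.mem_antidiagonal] at hab ⊢
          simp only at hab ⊢
          omega
        · rintro ⟨a, b⟩ hab hnot
          rw [HasAntidiagonal.mem_antidiagonal] at hab
          simp only at hab
          rw [PowerSeries.coeff_mk, PowerSeries.coeff_mk]
          have ha : ¬ Even a := by
            intro ha
            apply hnot
            obtain ⟨a', rfl⟩ := ha
            refine ⟨(a', m - a'), ?_, ?_⟩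
            · rw [Finset.mem_coe, HasAntidiagonal.mem_antidiagonal]
              simp only
              omega
            · simp only [Prod.mk.injEq]
              omega
          simp [w, ha]
        · rintro ⟨a, b⟩ _
          rw [PowerSeries.coeff_mk, PowerSeries.coeff_mk]
          simp only
          rw [hw0, hw0]
      rw [h1]
      have h2 := sum_centralBinom m
      exact_mod_cast h2
    have e : W * W * (1 - 4 * (X : PowerSeries ℚ) ^ 2) = W * W - X ^ 2 * (PowerSeries.C (4 : ℚ) * (W * W)) := by
      have h2 : (PowerSeries.C (4 : ℚ) : PowerSeries ℚ) = 4 := map_ofNat _ 4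
      rw [h2]; ring
    rw [e]
    ext n
    rw [map_sub]
    rcases Nat.even_or_odd' n with ⟨m, rfl | rfl⟩
    · cases m with
      | zero =>
        have := heven' 0
        simp only [mul_zero, pow_zero] at this
        rw [mul_zero, this, PowerSeries.coeff_X_pow_mul']
        simp
      | succ m =>
        have h3 : 2 * (m + 1) = 2 * m + 2 := by ring
        rw [heven' (m + 1), h3, PowerSeries.coeff_X_pow_mul, PowerSeries.coeff_C_mul, heven' m,
          PowerSeries.coeff_one]
        simp
        ring
    · cases m with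
      | zero =>
        have := hodd' 0
        simp only [mul_zero, zero_add] at this
        rw [mul_zero, zero_add, this, PowerSeries.coeff_X_pow_mul', PowerSeries.coeff_one]
        simp
      | succ m =>
        have h3 : 2 * (m + 1) + 1 = (2 * m + 1) + 2 := by ring
        rw [hodd' (m + 1), h3, PowerSeries.coeff_X_pow_mul, PowerSeries.coeff_C_mul, hodd' m,
          PowerSeries.coeff_one]
        simp
  -- the polynomial identity
  have c2 : (PowerSeries.C (2 : ℚ) : PowerSeries ℚ) = 2 := map_ofNat _ 2
  have c4 : (PowerSeries.C (4 : ℚ) : PowerSeries ℚ) = 4 := map_ofNat _ 4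
  have c16 : (PowerSeries.C (16 : ℚ) : PowerSeries ℚ) = 16 := map_ofNat _ 16
  let P1 : Polynomial ℚ := (1 - Polynomial.C 2 * Polynomial.X) * P - Q
  have hP1 : (P1 : PowerSeries ℚ) = 4 * (X : PowerSeries ℚ) * (Q : PowerSeries ℚ) * W := by
    have h1 : (P1 : PowerSeries ℚ) = (1 - 2 * (X : PowerSeries ℚ)) * (P : PowerSeries ℚ) - (Q : PowerSeries ℚ) := by
      simp only [P1, Polynomial.coe_sub, Polynomial.coe_mul, Polynomial.coe_one, Polynomial.coe_C,
        Polynomial.coe_X, c2]
    rw [h1, ← h]
    have h2 : (1 - 2 * (X : PowerSeries ℚ)) * ((Q : PowerSeries ℚ) * PowerSeries.mk c) =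
      (Q : PowerSeries ℚ) * ((1 - 2 * (X : PowerSeries ℚ)) * PowerSeries.mk c) := by ring
    rw [h2, hF]
    ring
  have hpoly : P1 * P1 * (1 - Polynomial.C 4 * Polynomial.X ^ 2) = Polynomial.C 16 * Polynomial.X ^ 2 * (Q * Q) := by
    apply Polynomial.coe_injective ℚ
    have h1 : ((P1 * P1 * (1 - Polynomial.C 4 * Polynomial.X ^ 2) : Polynomial ℚ) : PowerSeries ℚ) =
      (P1 : PowerSeries ℚ) * (P1 : PowerSeries ℚ) * (1 - 4 * (X : PowerSeries ℚ) ^ 2) := by
      simp only [Polynomial.coe_sub, Polynomial.coe_mul, Polynomial.coe_one, Polynomial.coe_C,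
        Polynomial.coe_X, Polynomial.coe_pow, c4]
    have h2 : ((Polynomial.C 16 * Polynomial.X ^ 2 * (Q * Q) : Polynomial ℚ) : PowerSeries ℚ) =
      16 * (X : PowerSeries ℚ) ^ 2 * ((Q : PowerSeries ℚ) * (Q : PowerSeries ℚ)) := by
      simp only [Polynomial.coe_mul, Polynomial.coe_C, Polynomial.coe_X, Polynomial.coe_pow, c16]
    rw [h1, h2, hP1]
    have h3 : 4 * (X : PowerSeries ℚ) * (Q : PowerSeries ℚ) * W * (4 * X * (Q : PowerSeries ℚ) * W) *
      (1 - 4 * (X : PowerSeries ℚ) ^ 2) = 16 * (X : PowerSeries ℚ) ^ 2 *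
      ((Q : PowerSeries ℚ) * (Q : PowerSeries ℚ)) * (W * W * (1 - 4 * (X : PowerSeries ℚ) ^ 2)) := by ring
    rw [h3, hWW, mul_one]
  have hlead := congrArg Polynomial.leadingCoeff hpoly
  have hl1 : (1 - Polynomial.C 4 * Polynomial.X ^ 2 : Polynomial ℚ).leadingCoeff = -4 := by
    have : (1 - Polynomial.C 4 * Polynomial.X ^ 2 : Polynomial ℚ) =
      Polynomial.C (-4) * Polynomial.X ^ 2 + Polynomial.C 0 * Polynomial.X + Polynomial.C 1 := by
      rw [Polynomial.C_neg, Polynomial.C_0, Polynomial.C_1]; ring
    rw [this, Polynomial.leadingCoeff_quadratic (by norm_num)]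
  have hl2 : (Polynomial.C 16 * Polynomial.X ^ 2 : Polynomial ℚ).leadingCoeff = 16 :=
    Polynomial.leadingCoeff_C_mul_X_pow _ _
  rw [Polynomial.leadingCoeff_mul, Polynomial.leadingCoeff_mul, hl1,
    Polynomial.leadingCoeff_mul (Polynomial.C 16 * Polynomial.X ^ 2), hl2, Polynomial.leadingCoeff_mul] at hlead
  have hq : 0 < Q.leadingCoeff * Q.leadingCoeff := by
    have : Q.leadingCoeff ≠ 0 := Polynomial.leadingCoeff_ne_zero.2 hQ
    exact mul_self_pos.2 this
  have hp : 0 ≤ P1.leadingCoeff * P1.leadingCoeff := mul_self_nonneg _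
  nlinarith

end Pool.Agent.Helper1_Core
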