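import Pool.Agent.Helper1_Core.Seq
import Pool.Agent.Helper1_Core.Series

/-!
The core dimensions of the tensor powers of `Ω(k) ⊕ Ω⁻¹(k)` over the Klein four group.
-/

set_option autoImplicit false
open CategoryTheory CategoryTheory.MonoidalCategory CategoryTheory.Limits

namespace Pool.Agent.Helper1_Core

noncomputable section

section general

variable {k : Type} [Field k] {G : Type} [Group G]

instance tensor_fd (X Y : Rep.{0} k G) [FiniteDimensional k X.V] [FiniteDimensional k Y.V] :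
    FiniteDimensional k (X ⊗ Y).V := by
  change FiniteDimensional k (TensorProduct k X.V Y.V)
  infer_instance

instance dsum_fd (X Y : Rep.{0} k G) [FiniteDimensional k X.V] [FiniteDimensional k Y.V] :
    FiniteDimensional k (dsum X Y).V := by
  change FiniteDimensional k (X.V × Y.V)
  infer_instance

instance unit_fd : FiniteDimensional k (𝟙_ (Rep.{0} k G)).V := by
  change FiniteDimensional k k
  infer_instance

lemma tensor_dsum_iso (Z X Y : Rep.{0} k G) : Nonempty (Z ⊗ dsum X Y ≅ dsum (Z ⊗ X) (Z ⊗ Y)) := by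
  let e := TensorProduct.prodRight k k Z.V X.V Y.V
  let f : Z ⊗ dsum X Y ⟶ dsum (Z ⊗ X) (Z ⊗ Y) := Rep.ofHom ⟨e.toLinearMap, fun g => by
    apply TensorProduct.ext'
    rintro z ⟨x, y⟩
    rfl⟩
  exact iso_of_bij f e.bijective

lemma rr_tensor_dsum [Fintype G] (Z X Y : Rep.{0} k G) [FiniteDimensional k Z.V] [FiniteDimensional k X.V]
    [FiniteDimensional k Y.V] : rr (Z ⊗ dsum X Y) = rr (Z ⊗ X) + rr (Z ⊗ Y) := by
  obtain ⟨e⟩ := tensor_dsum_iso Z X Y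
  rw [rr_congr e, rr_dsum]

/-- the middle interchange -/
def mid (Z O B W : Rep.{0} k G) : (Z ⊗ O) ⊗ (B ⊗ W) ≅ (Z ⊗ B) ⊗ (O ⊗ W) :=
  α_ Z O (B ⊗ W) ≪≫ whiskerLeftIso Z ((α_ O B W).symm ≪≫ whiskerRightIso (β_ O B) W ≪≫ α_ B O W) ≪≫
    (α_ Z B (O ⊗ W)).symm

end general

lemma E_pos (a : ℤ) (Z : Rep.{0} F2 V4) [FiniteDimensional F2 Z.V] :
    rr (Z ⊗ (VZ a ⊗ VZ 1)) = rr (Z ⊗ VZ (a + 1)) := by
  obtain ⟨P, hP1, hP2, hP3⟩ := VZ_ses a
  obtain ⟨P0, hQ1, hQ2, hQ3⟩ := VZ_ses 0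
  have h1 : SES (Z ⊗ VZ (a + 1)) (Z ⊗ P) (Z ⊗ VZ a) := SES_whiskerLeft Z hP3
  have h2 : SES (VZ a ⊗ VZ (0 + 1)) (VZ a ⊗ P0) (VZ a ⊗ VZ 0) := SES_whiskerLeft (VZ a) hQ3
  obtain ⟨e0⟩ := Vn_zero_iso
  have e0' : VZ 0 ≅ 𝟙_ (Rep.{0} F2 V4) := e0
  have h3 : SES (VZ a ⊗ VZ 1) (VZ a ⊗ P0) (VZ a) :=
    SES_refl_congr h2 (Iso.refl _) (whiskerLeftIso (VZ a) e0' ≪≫ ρ_ (VZ a))
  have h4 : SES (Z ⊗ (VZ a ⊗ VZ 1)) (Z ⊗ (VZ a ⊗ P0)) (Z ⊗ VZ a) := SES_whiskerLeft Z h3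
  exact rr_shift_unique V4_isPGroup h4 (HP_tensor_left _ (HP_tensor_left _ hQ2)) h1 (HP_tensor_left _ hP2)

lemma E_neg (a : ℤ) (Z : Rep.{0} F2 V4) [FiniteDimensional F2 Z.V] :
    rr (Z ⊗ (VZ a ⊗ VZ (-1))) = rr (Z ⊗ VZ (a - 1)) := by
  have h1 := E_pos (a - 1) (Z ⊗ VZ (-1))
  rw [sub_add_cancel] at h1
  have h2 : rr ((Z ⊗ VZ (-1)) ⊗ (VZ (a - 1) ⊗ VZ 1)) = rr ((Z ⊗ VZ (a - 1)) ⊗ (VZ (-1) ⊗ VZ 1)) :=
    rr_congr (mid _ _ _ _)
  have h3 := E_pos (-1) (Z ⊗ VZ (a - 1))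
  have h4 : (-1 : ℤ) + 1 = 0 := by norm_num
  rw [h4] at h3
  obtain ⟨e0⟩ := Vn_zero_iso
  have e0' : VZ 0 ≅ 𝟙_ (Rep.{0} F2 V4) := e0
  have h5 : rr ((Z ⊗ VZ (a - 1)) ⊗ VZ 0) = rr (Z ⊗ VZ (a - 1)) :=
    rr_congr (whiskerLeftIso _ e0' ≪≫ ρ_ _)
  have h6 : rr (Z ⊗ (VZ a ⊗ VZ (-1))) = rr ((Z ⊗ VZ (-1)) ⊗ VZ a) :=
    rr_congr (whiskerLeftIso Z (β_ _ _) ≪≫ (α_ _ _ _).symm)
  rw [h6, ← h1, h2, h3, h5]

/-- the module `Ω(k) ⊕ Ω⁻¹(k)` -/
def MM : Rep.{0} F2 V4 := dsum (VZ 1) (VZ (-1))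

instance : FiniteDimensional F2 MM.V := by
  unfold MM
  infer_instance

/-- the tensor powers -/
def TT (n : ℕ) : Rep.{0} F2 V4 := (fun X : Rep.{0} F2 V4 => X ⊗ MM)^[n] (𝟙_ (Rep.{0} F2 V4))

lemma TT_succ (n : ℕ) : TT (n + 1) = TT n ⊗ MM := by
  unfold TT
  rw [Function.iterate_succ_apply']

instance (n : ℕ) : FiniteDimensional F2 (TT n).V := by
  induction n with
  | zero =>
    change FiniteDimensional F2 (𝟙_ (Rep.{0} F2 V4)).V
    infer_instance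
  | succ n ih =>
    rw [TT_succ]
    infer_instance

/-- core dimensions -/
def cc (n : ℕ) (a : ℤ) : ℤ := rr (TT n ⊗ VZ a)

lemma cc_zero (a : ℤ) : cc 0 a = 2 * |a| + 1 := by
  unfold cc
  rw [← rr_VZ]
  exact rr_congr (λ_ (VZ a))

lemma cc_succ (n : ℕ) (a : ℤ) : cc (n + 1) a = cc n (a + 1) + cc n (a - 1) := by
  unfold cc
  rw [TT_succ]
  have h1 : rr ((TT n ⊗ MM) ⊗ VZ a) = rr (TT n ⊗ (VZ a ⊗ MM)) :=
    rr_congr (α_ _ _ _ ≪≫ whiskerLeftIso _ (β_ _ _))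
  have h2 : rr (TT n ⊗ (VZ a ⊗ MM)) = rr (TT n ⊗ dsum (VZ a ⊗ VZ 1) (VZ a ⊗ VZ (-1))) := by
    obtain ⟨e⟩ := tensor_dsum_iso (VZ a) (VZ 1) (VZ (-1))
    exact rr_congr (whiskerLeftIso _ e)
  rw [h1, h2, rr_tensor_dsum, E_pos, E_neg]

lemma rr_TT (n : ℕ) : rr (TT n) = cc n 0 := by
  unfold cc
  obtain ⟨e0⟩ := Vn_zero_iso
  have e0' : VZ 0 ≅ 𝟙_ (Rep.{0} F2 V4) := e0
  exact (rr_congr (whiskerLeftIso _ e0' ≪≫ ρ_ _)).symm

/-- The binomial solution of the recursion. -/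
lemma rec_solution (u : ℕ → ℤ → ℤ) (h : ∀ n a, u (n + 1) a = u n (a + 1) + u n (a - 1)) (n : ℕ) (a : ℤ) :
    u n a = ∑ i ∈ Finset.range (n + 1), (n.choose i : ℤ) * u 0 (a + n - 2 * i) := by
  induction n generalizing a with
  | zero => simp
  | succ n ih =>
    rw [h, ih, ih]
    have e1 : ∑ i ∈ Finset.range (n + 1 + 1), ((n + 1).choose i : ℤ) * u 0 (a + (n + 1 : ℕ) - 2 * i) =
      ∑ i ∈ Finset.range (n + 1), (n.choose i : ℤ) * u 0 (a + (n + 1 : ℕ) - 2 * (i + 1 : ℕ)) +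
      ∑ i ∈ Finset.range (n + 1), (n.choose (i + 1) : ℤ) * u 0 (a + (n + 1 : ℕ) - 2 * (i + 1 : ℕ)) +
      u 0 (a + (n + 1 : ℕ)) := by
      rw [Finset.sum_range_succ' _ (n + 1)]
      congr 1
      · rw [← Finset.sum_add_distrib]
        refine Finset.sum_congr rfl fun i _ => ?_
        rw [Nat.choose_succ_succ]
        push_cast
        ring
      · simp
    have e2 : ∑ i ∈ Finset.range (n + 1), (n.choose (i + 1) : ℤ) * u 0 (a + (n + 1 : ℕ) - 2 * (i + 1 : ℕ)) +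
      u 0 (a + (n + 1 : ℕ)) = ∑ i ∈ Finset.range (n + 1), (n.choose i : ℤ) * u 0 (a + (n + 1 : ℕ) - 2 * i) := by
      rw [Finset.sum_range_succ, Finset.sum_range_succ' _ n]
      have : n.choose (n + 1) = 0 := Nat.choose_succ_self n
      rw [this]
      simp
    have g1 : ∑ i ∈ Finset.range (n + 1), (n.choose i : ℤ) * u 0 (a + 1 + n - 2 * i) =
      ∑ i ∈ Finset.range (n + 1), (n.choose i : ℤ) * u 0 (a + (n + 1 : ℕ) - 2 * i) := by
      refine Finset.sum_congr rfl fun i _ => ?_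
      congr 2
      push_cast
      ring
    have g2 : ∑ i ∈ Finset.range (n + 1), (n.choose i : ℤ) * u 0 (a - 1 + n - 2 * i) =
      ∑ i ∈ Finset.range (n + 1), (n.choose i : ℤ) * u 0 (a + (n + 1 : ℕ) - 2 * (i + 1 : ℕ)) := by
      refine Finset.sum_congr rfl fun i _ => ?_
      congr 2
      push_cast
      ring
    rw [g1, g2, e1, ← e2]
    ring

lemma defect (n : ℕ) : cc (n + 1) 0 - 2 * cc n 0 =
    ∑ i ∈ Finset.range (n + 1), (n.choose i : ℤ) * (if (n : ℤ) - 2 * i = 0 then 4 else 0) := by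
  let u : ℕ → ℤ → ℤ := fun n a => cc n (a + 1) + cc n (a - 1) - 2 * cc n a
  have hu : ∀ n a, u (n + 1) a = u n (a + 1) + u n (a - 1) := by
    intro n a
    simp only [u]
    rw [cc_succ, cc_succ, cc_succ]
    have h1 : a + 1 - 1 = a := by ring
    have h2 : a - 1 + 1 = a := by ring
    rw [h1, h2]
    ring
  have h0 : ∀ a, u 0 a = if a = 0 then 4 else 0 := by
    intro a
    simp only [u]
    rw [cc_zero, cc_zero, cc_zero]
    split_ifs with h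
    · subst h
      norm_num
    · rcases lt_or_gt_of_ne h with h | h
      · rw [abs_of_nonpos (by omega), abs_of_neg (by omega), abs_of_neg h]
        ring
      · rw [abs_of_pos (by omega), abs_of_nonneg (by omega), abs_of_pos h]
        ring
  have h1 : cc (n + 1) 0 - 2 * cc n 0 = u n 0 := by
    simp only [u]
    rw [cc_succ]
  rw [h1, rec_solution u hu]
  refine Finset.sum_congr rfl fun i _ => ?_
  rw [h0, zero_add]

lemma defect_even (m : ℕ) : cc (2 * m + 1) 0 - 2 * cc (2 * m) 0 = 4 * Nat.centralBinom m := by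
  rw [defect, Finset.sum_eq_single m]
  · rw [if_pos (by push_cast; ring), Nat.centralBinom]
    ring
  · intro i _ hi
    rw [if_neg (by push_cast; omega), mul_zero]
  · intro h
    exact absurd (Finset.mem_range.2 (by omega)) h

lemma defect_odd (m : ℕ) : cc (2 * m + 2) 0 - 2 * cc (2 * m + 1) 0 = 0 := by
  rw [defect]
  apply Finset.sum_eq_zero
  intro i _
  rw [if_neg (by push_cast; omega), mul_zero]

end

end Pool.Agent.Helper1_Core
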