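import Pool.Agent.Helper1_Core.V4

/-!
The doubly infinite sequence of syzygies of the trivial module over the Klein four group.
-/

set_option autoImplicit false
open CategoryTheory CategoryTheory.MonoidalCategory CategoryTheory.Limits

namespace Pool.Agent.Helper1_Core

noncomputable section

section dual

variable {k : Type} [Field k] {G : Type} [Group G]

/-- the dual representation -/
abbrev Du (X : Rep.{0} k G) : Rep.{0} k G := Rep.of X.ρ.dual

/-- the dual of a map -/
def duMap {X Y : Rep.{0} k G} (f : X ⟶ Y) : Du Y ⟶ Du X :=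
  Rep.ofHom ⟨f.hom.toLinearMap.dualMap, fun g => by
    apply LinearMap.ext
    intro φ
    apply LinearMap.ext
    intro x
    change φ (Y.ρ g⁻¹ (f.hom x)) = φ (f.hom (X.ρ g⁻¹ x))
    rw [Rep.hom_comm_apply]⟩

lemma SES_dual {A P B : Rep.{0} k G} (h : SES A P B) : SES (Du B) (Du P) (Du A) := by
  obtain ⟨i, f, hi, hf, hex⟩ := h
  refine ⟨duMap f, duMap i, ?_, ?_, ?_⟩
  · change Function.Injective f.hom.toLinearMap.dualMap
    exact LinearMap.dualMap_injective_of_surjective hf
  · change Function.Surjective i.hom.toLinearMap.dualMap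
    exact LinearMap.dualMap_surjective_of_injective hi
  · change Function.Exact f.hom.toLinearMap.dualMap i.hom.toLinearMap.dualMap
    rw [LinearMap.exact_iff, LinearMap.ker_dualMap_eq_dualAnnihilator_range,
      LinearMap.range_dualMap_eq_dualAnnihilator_ker]
    congr 1
    have hex' : Function.Exact i.hom.toLinearMap f.hom.toLinearMap := hex
    exact (LinearMap.exact_iff.1 hex').symm

lemma HP_dual [Fintype G] {P : Rep.{0} k G} (h : HP P) : HP (Du P) := by
  obtain ⟨θ, hθ⟩ := h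
  refine ⟨θ.dualMap, fun φ => ?_⟩
  apply LinearMap.ext
  intro x
  change (∑ g : G, (Du P).ρ g (θ.dualMap ((Du P).ρ g⁻¹ φ)) : Module.Dual k P.V) x = (φ : Module.Dual k P.V) x
  rw [LinearMap.sum_apply]
  have h1 : ∀ g : G, ((Du P).ρ g (θ.dualMap ((Du P).ρ g⁻¹ φ)) : Module.Dual k P.V) x =
      (φ : Module.Dual k P.V) (P.ρ g (θ (P.ρ g⁻¹ x))) := by
    intro g
    change (φ : Module.Dual k P.V) (P.ρ g⁻¹⁻¹ (θ (P.ρ g⁻¹ x))) = _
    rw [inv_inv]
  rw [Finset.sum_congr rfl (fun g _ => h1 g), ← map_sum, hθ]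

lemma norm_dual [Fintype G] {X : Rep.{0} k G} (h : ∀ x, X.ρ.norm x = 0) (φ : (Du X).V) :
    (Du X).ρ.norm φ = 0 := by
  apply LinearMap.ext
  intro x
  rw [norm_apply']
  change (∑ g : G, (Du X).ρ g φ : Module.Dual k X.V) x = 0
  rw [LinearMap.sum_apply]
  have h1 : ∀ g : G, ((Du X).ρ g φ : Module.Dual k X.V) x = (φ : Module.Dual k X.V) (X.ρ g⁻¹ x) := fun g => rfl
  rw [Finset.sum_congr rfl (fun g _ => h1 g), ← map_sum]
  have h2 : ∑ g : G, X.ρ g⁻¹ x = X.ρ.norm x := by
    rw [norm_apply']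
    exact Fintype.sum_equiv (Equiv.inv G) _ _ (fun g => rfl)
  rw [h2, h, map_zero]

end dual

/-- data of a Kronecker module with surjective first map -/
structure KD where
  /-- top -/
  U : Type
  /-- socle -/
  S : Type
  [iU : AddCommGroup U]
  [mU : Module F2 U]
  [iS : AddCommGroup S]
  [mS : Module F2 S]
  [fU : FiniteDimensional F2 U]
  [fS : FiniteDimensional F2 S]
  /-- first map -/
  α : U →ₗ[F2] S
  /-- second map -/
  β : U →ₗ[F2] S
  hα : Function.Surjective α

attribute [instance] KD.iU KD.mU KD.iS KD.mS KD.fU KD.fS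

/-- the syzygy -/
def KD.next (D : KD) : KD where
  U := syU D.α D.β
  S := D.U
  α := syA D.α D.β
  β := syB D.α D.β
  hα := syA_surj D.α D.β D.hα

/-- the trivial module -/
def D0 : KD where
  U := F2
  S := Fin 0 → F2
  α := 0
  β := 0
  hα := fun x => ⟨0, Subsingleton.elim _ _⟩

/-- the iterated syzygies -/
def Dn : ℕ → KD
  | 0 => D0
  | n + 1 => (Dn n).next

lemma Dn_dim (n : ℕ) : Module.finrank F2 (Dn n).U = n + 1 ∧ Module.finrank F2 (Dn n).S = n := by
  induction n with
  | zero =>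
    constructor
    · change Module.finrank F2 F2 = 0 + 1
      simp
    · change Module.finrank F2 (Fin 0 → F2) = 0
      simp
  | succ n ih =>
    constructor
    · change Module.finrank F2 (syU (Dn n).α (Dn n).β) = n + 1 + 1
      have h1 := LinearMap.finrank_range_add_finrank_ker ((Dn n).α ∘ₗ LinearMap.fst F2 (Dn n).U (Dn n).U +
        (Dn n).β ∘ₗ LinearMap.snd F2 (Dn n).U (Dn n).U)
      have h2 : LinearMap.range ((Dn n).α ∘ₗ LinearMap.fst F2 (Dn n).U (Dn n).U +
        (Dn n).β ∘ₗ LinearMap.snd F2 (Dn n).U (Dn n).U) = ⊤ := by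
        rw [LinearMap.range_eq_top]
        intro s
        obtain ⟨u, hu⟩ := (Dn n).hα s
        refine ⟨(u, 0), ?_⟩
        change (Dn n).α u + (Dn n).β 0 = s
        rw [map_zero, add_zero, hu]
      rw [h2, finrank_top, Module.finrank_prod, ih.1, ih.2] at h1
      change n + Module.finrank F2 (syU (Dn n).α (Dn n).β) = _ at h1
      omega
    · exact ih.1

/-- the syzygies `Ω^n(k)` for `n ≥ 0` -/
def Vn (n : ℕ) : Rep.{0} F2 V4 := Kr (Dn n).α (Dn n).β

instance (n : ℕ) : FiniteDimensional F2 (Vn n).V := by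
  change FiniteDimensional F2 ((Dn n).U × (Dn n).S)
  infer_instance

lemma finrank_Vn (n : ℕ) : Module.finrank F2 (Vn n).V = 2 * n + 1 := by
  change Module.finrank F2 ((Dn n).U × (Dn n).S) = 2 * n + 1
  rw [Module.finrank_prod, (Dn_dim n).1, (Dn_dim n).2]
  omega

lemma Vn_norm (n : ℕ) (x : (Vn n).V) : (Vn n).ρ.norm x = 0 := Kr_norm _ _ x

lemma rr_Vn (n : ℕ) : rr (Vn n) = 2 * n + 1 := by
  rw [rr_of_norm_zero _ (Vn_norm n), finrank_Vn]
  push_cast
  ring

lemma Vn_ses (n : ℕ) : SES (Vn (n + 1)) (Fr F2 V4 (Dn n).U) (Vn n) := kr_ses _ _ (Dn n).hα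

lemma Vn_zero_iso : Nonempty (Vn 0 ≅ 𝟙_ (Rep.{0} F2 V4)) := by
  let f : Vn 0 ⟶ 𝟙_ (Rep.{0} F2 V4) := Rep.ofHom ⟨LinearMap.fst F2 F2 (Fin 0 → F2), fun g => rfl⟩
  refine iso_of_bij f ⟨?_, ?_⟩
  · intro x y h
    exact Prod.ext h (Subsingleton.elim (α := Fin 0 → F2) _ _)
  · intro x
    exact ⟨(x, 0), rfl⟩

lemma dual_unit_iso : Nonempty (Du (Vn 0) ≅ Vn 0) := by
  -- both are trivial one-dimensional
  let f : Vn 0 ⟶ Du (Vn 0) := Rep.ofHom
    ⟨LinearMap.toSpanSingleton F2 (Module.Dual F2 (F2 × (Fin 0 → F2))) (LinearMap.fst F2 F2 (Fin 0 → F2)) ∘ₗ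
      LinearMap.fst F2 F2 (Fin 0 → F2), fun g => by
        apply LinearMap.ext
        intro x
        apply LinearMap.ext
        intro y
        rfl⟩
  have hinj : Function.Injective f.hom := by
    intro x y h
    have h1 := LinearMap.congr_fun (h : (f.hom x : Module.Dual F2 (F2 × (Fin 0 → F2))) = f.hom y)
      ((1, 0) : F2 × (Fin 0 → F2))
    have aux : ∀ a b : F2, a * 1 = b * 1 → a = b := fun a b h => by simpa using h
    exact Prod.ext (aux x.1 y.1 h1) (Subsingleton.elim (α := Fin 0 → F2) _ _)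
  have hd : Module.finrank F2 (Vn 0).V = Module.finrank F2 (Du (Vn 0)).V := by
    change _ = Module.finrank F2 (Module.Dual F2 (Vn 0).V)
    rw [Subspace.dual_finrank_eq]
  have hsurj : Function.Surjective f.hom := by
    have : Function.Surjective f.hom.toLinearMap :=
      (LinearMap.injective_iff_surjective_of_finrank_eq_finrank hd).1 hinj
    exact this
  obtain ⟨e⟩ := iso_of_bij f ⟨hinj, hsurj⟩
  exact ⟨e.symm⟩

/-- all syzygies -/
def VZ : ℤ → Rep.{0} F2 V4
  | Int.ofNat n => Vn n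
  | Int.negSucc n => Du (Vn (n + 1))

instance (a : ℤ) : FiniteDimensional F2 (VZ a).V := by
  cases a with
  | ofNat n =>
    change FiniteDimensional F2 (Vn n).V
    infer_instance
  | negSucc n =>
    change FiniteDimensional F2 (Module.Dual F2 (Vn (n + 1)).V)
    infer_instance

lemma rr_VZ (a : ℤ) : rr (VZ a) = 2 * |a| + 1 := by
  cases a with
  | ofNat n =>
    change rr (Vn n) = _
    rw [rr_Vn]
    simp
  | negSucc n =>
    change rr (Du (Vn (n + 1))) = _
    rw [rr_of_norm_zero _ (norm_dual (Vn_norm _))]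
    change (Module.finrank F2 (Module.Dual F2 (Vn (n + 1)).V) : ℤ) = _
    rw [Subspace.dual_finrank_eq, finrank_Vn]
    rw [Int.negSucc_eq, abs_neg]
    have : |((n : ℤ) + 1)| = n + 1 := abs_of_nonneg (by positivity)
    rw [this]
    push_cast
    ring

lemma SES_refl_congr {A P B A' B' : Rep.{0} F2 V4} (h : SES A P B) (a : A' ≅ A) (b : B ≅ B') :
    SES A' P B' := SES_congr h a (Iso.refl P) b

/-- the basic short exact sequences -/
lemma VZ_ses (a : ℤ) : ∃ P : Rep.{0} F2 V4, FiniteDimensional F2 P.V ∧ HP P ∧ SES (VZ (a + 1)) P (VZ a) := by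
  have hfd : ∀ n : ℕ, FiniteDimensional F2 (Fr F2 V4 (Dn n).U).V := by
    intro n
    change FiniteDimensional F2 (V4 → (Dn n).U)
    infer_instance
  have hfd' : ∀ n : ℕ, FiniteDimensional F2 (Du (Fr F2 V4 (Dn n).U)).V := by
    intro n
    have := hfd n
    change FiniteDimensional F2 (Module.Dual F2 (Fr F2 V4 (Dn n).U).V)
    infer_instance
  cases a with
  | ofNat n => exact ⟨_, hfd n, HP_Fr _, Vn_ses n⟩
  | negSucc n =>
    cases n with
    | zero =>
      refine ⟨_, hfd' 0, HP_dual (HP_Fr _), ?_⟩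
      obtain ⟨e⟩ := dual_unit_iso
      exact SES_refl_congr (SES_dual (Vn_ses 0)) e.symm (Iso.refl _)
    | succ n =>
      have h1 : Int.negSucc (n + 1) + 1 = Int.negSucc n := by
        rw [Int.negSucc_eq, Int.negSucc_eq]
        push_cast
        ring
      rw [h1]
      exact ⟨_, hfd' (n + 1), HP_dual (HP_Fr _), SES_dual (Vn_ses (n + 1))⟩

end

end Pool.Agent.Helper1_Core
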