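import Pool.Agent.Helper1_Core.Proj

/-!
Dimension shifting: the core dimension of a syzygy depends only on the module.
-/

set_option autoImplicit false
open CategoryTheory CategoryTheory.MonoidalCategory CategoryTheory.Limits

namespace Pool.Agent.Helper1_Core

noncomputable section

variable {k : Type} [Field k] {G : Type} [Group G]

/-- the augmentation part `I * X` -/
def aug (X : Rep.{0} k G) : Submodule k X.V :=
  Submodule.span k (Set.range fun a : G × X.V => X.ρ a.1 a.2 - a.2)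

lemma mem_aug {X : Rep.{0} k G} (g : G) (x : X.V) : X.ρ g x - x ∈ aug X :=
  Submodule.subset_span ⟨(g, x), rfl⟩

lemma aug_map {X Y : Rep.{0} k G} (f : X ⟶ Y) (hf : Function.Surjective f.hom) :
    (aug X).map f.hom.toLinearMap = aug Y := by
  unfold aug
  rw [Submodule.map_span]
  congr 1
  ext y
  constructor
  · rintro ⟨_, ⟨⟨g, x⟩, rfl⟩, rfl⟩
    refine ⟨(g, f.hom x), ?_⟩
    change Y.ρ g (f.hom x) - f.hom x = f.hom (X.ρ g x - x)
    rw [map_sub, Rep.hom_comm_apply]
  · rintro ⟨⟨g, y⟩, rfl⟩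
    obtain ⟨x, rfl⟩ := hf y
    refine ⟨X.ρ g x - x, ⟨(g, x), rfl⟩, ?_⟩
    change f.hom (X.ρ g x - x) = Y.ρ g (f.hom x) - f.hom x
    rw [map_sub, Rep.hom_comm_apply]

variable [Fintype G]

lemma ker_norm_HP {P : Rep.{0} k G} (h : HP P) : LinearMap.ker P.ρ.norm = aug P := by
  apply le_antisymm
  · intro x hx
    rw [LinearMap.mem_ker] at hx
    obtain ⟨θ, hθ⟩ := h
    have h1 : x = ∑ g : G, (P.ρ g (θ (P.ρ g⁻¹ x)) - θ (P.ρ g⁻¹ x)) := by
      rw [Finset.sum_sub_distrib, hθ]
      have h2 : ∑ g : G, θ (P.ρ g⁻¹ x) = 0 := by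
        rw [← map_sum]
        have h3 : ∑ g : G, P.ρ g⁻¹ x = P.ρ.norm x := by
          rw [norm_apply']
          exact Fintype.sum_equiv (Equiv.inv G) _ _ (fun g => rfl)
        rw [h3, hx, map_zero]
      rw [h2, sub_zero]
    rw [h1]
    exact Submodule.sum_mem _ fun g _ => mem_aug g _
  · unfold aug
    rw [Submodule.span_le]
    rintro _ ⟨⟨g, x⟩, rfl⟩
    change P.ρ.norm (P.ρ g x - x) = 0
    rw [map_sub, norm_apply', norm_apply', sub_eq_zero]
    refine Fintype.sum_equiv (Equiv.mulRight g) _ _ (fun h => ?_)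
    change P.ρ h (P.ρ g x) = P.ρ (h * g) x
    rw [← Module.End.mul_apply, ← map_mul]

lemma finrank_inf_ker {V W : Type} [AddCommGroup V] [Module k V] [AddCommGroup W] [Module k W]
    [FiniteDimensional k V] (f : V →ₗ[k] W) (p : Submodule k V) :
    Module.finrank k (p ⊓ LinearMap.ker f : Submodule k V) + Module.finrank k (p.map f) =
      Module.finrank k p := by
  have h1 := LinearMap.finrank_range_add_finrank_ker (f ∘ₗ p.subtype)
  have h2 : LinearMap.range (f ∘ₗ p.subtype) = p.map f := by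
    rw [LinearMap.range_comp, Submodule.range_subtype]
  have h3 : (LinearMap.ker (f ∘ₗ p.subtype)).map p.subtype = p ⊓ LinearMap.ker f := by
    rw [LinearMap.ker_comp, Submodule.map_comap_subtype]
  have h4 := (Submodule.equivMapOfInjective p.subtype p.injective_subtype
    (LinearMap.ker (f ∘ₗ p.subtype))).finrank_eq
  rw [h3] at h4
  rw [h2, h4] at h1
  omega

/-- dimension shifting -/
lemma rr_shift {p : ℕ} [Fact p.Prime] [CharP k p] (hG : IsPGroup p G) {A P B : Rep.{0} k G}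
    [FiniteDimensional k A.V] [FiniteDimensional k P.V] [FiniteDimensional k B.V]
    (h : SES A P B) (hP : HP P) :
    rr A = (Fintype.card G : ℤ) * ((Module.finrank k B.V : ℤ) - Module.finrank k (aug B))
      - Module.finrank k B.V := by
  obtain ⟨i, f, hi, hf, hex⟩ := h
  have hker : LinearMap.ker f.hom.toLinearMap = LinearMap.range i.hom.toLinearMap := by
    ext x
    exact hex x
  have hdim := LinearMap.finrank_range_add_finrank_ker f.hom.toLinearMap
  rw [LinearMap.range_eq_top.2 hf, finrank_top, hker, LinearMap.finrank_range_of_inj hi] at hdim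
  -- rank of the norm on `A`
  have hT : P.ρ.norm ∘ₗ i.hom.toLinearMap = i.hom.toLinearMap ∘ₗ A.ρ.norm := by
    apply LinearMap.ext
    intro a
    change P.ρ.norm (i.hom a) = i.hom (A.ρ.norm a)
    rw [norm_apply', norm_apply', map_sum]
    refine Finset.sum_congr rfl fun g _ => ?_
    rw [Rep.hom_comm_apply]
  have h1 := LinearMap.finrank_range_add_finrank_ker (P.ρ.norm ∘ₗ i.hom.toLinearMap)
  have h2 : Module.finrank k (LinearMap.range (P.ρ.norm ∘ₗ i.hom.toLinearMap)) =
      Module.finrank k (LinearMap.range A.ρ.norm) := by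
    rw [hT, LinearMap.range_comp]
    exact ((Submodule.equivMapOfInjective i.hom.toLinearMap hi _).finrank_eq).symm
  have h3 : Module.finrank k (LinearMap.ker (P.ρ.norm ∘ₗ i.hom.toLinearMap)) =
      Module.finrank k (aug P ⊓ LinearMap.ker f.hom.toLinearMap : Submodule k P.V) := by
    rw [(Submodule.equivMapOfInjective i.hom.toLinearMap hi _).finrank_eq, LinearMap.ker_comp,
      ker_norm_HP hP, Submodule.map_comap_eq, hker, inf_comm]
  have h4 := finrank_inf_ker f.hom.toLinearMap (aug P)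
  rw [aug_map f hf] at h4
  have h5 := LinearMap.finrank_range_add_finrank_ker P.ρ.norm
  rw [ker_norm_HP hP] at h5
  have h6 := rr_HP hG hP
  unfold rr at h6 ⊢
  rw [h2, h3] at h1
  have h7 : (Module.finrank k (LinearMap.range A.ρ.norm) : ℤ) = Module.finrank k A.V
    - (Module.finrank k (aug P) - Module.finrank k (aug B)) := by omega
  have h8 : (Module.finrank k (aug P) : ℤ) = Module.finrank k P.V -
    Module.finrank k (LinearMap.range P.ρ.norm) := by omega
  have h9 : (Module.finrank k P.V : ℤ) = Module.finrank k A.V + Module.finrank k B.V := by omega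
  rw [h7, h8]
  have h10 : (Fintype.card G : ℤ) * (Module.finrank k (LinearMap.range P.ρ.norm) : ℤ) =
    Module.finrank k P.V := by linarith
  have : (Fintype.card G : ℤ) * ((Module.finrank k A.V : ℤ) - (Module.finrank k P.V -
    Module.finrank k (LinearMap.range P.ρ.norm) - Module.finrank k (aug B))) =
    (Fintype.card G : ℤ) * ((Module.finrank k A.V : ℤ) - Module.finrank k P.V + Module.finrank k (aug B)) +
    (Fintype.card G : ℤ) * (Module.finrank k (LinearMap.range P.ρ.norm) : ℤ) := by ring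
  rw [this, h10, h9]
  ring

lemma rr_shift_unique {p : ℕ} [Fact p.Prime] [CharP k p] (hG : IsPGroup p G) {A P A' P' B : Rep.{0} k G}
    [FiniteDimensional k A.V] [FiniteDimensional k P.V] [FiniteDimensional k A'.V]
    [FiniteDimensional k P'.V] [FiniteDimensional k B.V]
    (h : SES A P B) (hP : HP P) (h' : SES A' P' B) (hP' : HP P') : rr A = rr A' := by
  rw [rr_shift hG h hP, rr_shift hG h' hP']

omit [Fintype G] in
lemma SES_whiskerLeft (Z : Rep.{0} k G) {A P B : Rep.{0} k G} (h : SES A P B) :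
    SES (Z ⊗ A) (Z ⊗ P) (Z ⊗ B) := by
  obtain ⟨i, f, hi, hf, hex⟩ := h
  refine ⟨Z ◁ i, Z ◁ f, ?_, ?_, ?_⟩
  · change Function.Injective (LinearMap.lTensor Z.V i.hom.toLinearMap)
    exact Module.Flat.lTensor_preserves_injective_linearMap _ hi
  · change Function.Surjective (LinearMap.lTensor Z.V f.hom.toLinearMap)
    exact LinearMap.lTensor_surjective _ hf
  · change Function.Exact (LinearMap.lTensor Z.V i.hom.toLinearMap) (LinearMap.lTensor Z.V f.hom.toLinearMap)
    exact lTensor_exact Z.V (f := i.hom.toLinearMap) (g := f.hom.toLinearMap) hex hf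

omit [Fintype G] in
lemma SES_congr {A P B A' P' B' : Rep.{0} k G} (h : SES A P B) (a : A' ≅ A) (p : P ≅ P') (b : B ≅ B') :
    SES A' P' B' := by
  obtain ⟨i, f, hi, hf, hex⟩ := h
  refine ⟨a.hom ≫ i ≫ p.hom, p.inv ≫ f ≫ b.hom, ?_, ?_, ?_⟩
  · intro x y hxy
    change p.hom.hom (i.hom (a.hom.hom x)) = p.hom.hom (i.hom (a.hom.hom y)) at hxy
    have h1 := congrArg p.inv.hom hxy
    rw [Rep.inv_hom_apply, Rep.inv_hom_apply] at h1
    have h2 := congrArg a.inv.hom (hi h1)
    rwa [Rep.inv_hom_apply, Rep.inv_hom_apply] at h2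
  · intro y
    obtain ⟨x, hx⟩ := hf (b.inv.hom y)
    refine ⟨p.hom.hom x, ?_⟩
    change b.hom.hom (f.hom (p.inv.hom (p.hom.hom x))) = y
    rw [Rep.inv_hom_apply, hx, Rep.hom_inv_apply]
  · intro y
    constructor
    · intro hy
      change b.hom.hom (f.hom (p.inv.hom y)) = 0 at hy
      have h1 := congrArg b.inv.hom hy
      rw [Rep.inv_hom_apply, map_zero] at h1
      obtain ⟨x, hx⟩ := (hex _).1 h1
      refine ⟨a.inv.hom x, ?_⟩
      change p.hom.hom (i.hom (a.hom.hom (a.inv.hom x))) = y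
      rw [Rep.hom_inv_apply, hx, Rep.hom_inv_apply]
    · rintro ⟨x, rfl⟩
      change b.hom.hom (f.hom (p.inv.hom (p.hom.hom (i.hom (a.hom.hom x))))) = 0
      rw [Rep.inv_hom_apply, (hex _).2 ⟨_, rfl⟩, map_zero]

lemma HP_tensor_left (Z : Rep.{0} k G) {P : Rep.{0} k G} (h : HP P) : HP (Z ⊗ P) := by
  obtain ⟨θ, hθ⟩ := h
  refine ⟨LinearMap.lTensor Z.V θ, ?_⟩
  intro x
  change (∑ g : G, (Z ⊗ P).ρ g ((LinearMap.lTensor Z.V θ) ((Z ⊗ P).ρ g⁻¹ x))) = x
  have h0 : ∀ g : G, (Z ⊗ P).ρ g ((LinearMap.lTensor Z.V θ) ((Z ⊗ P).ρ g⁻¹ x)) =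
      ((Z ⊗ P).ρ g ∘ₗ (LinearMap.lTensor Z.V θ) ∘ₗ (Z ⊗ P).ρ g⁻¹) x := fun g => rfl
  rw [Finset.sum_congr rfl (fun g _ => h0 g), ← LinearMap.sum_apply]
  have h1 : (∑ g : G, ((Z ⊗ P).ρ g ∘ₗ (LinearMap.lTensor Z.V θ) ∘ₗ (Z ⊗ P).ρ g⁻¹)) = LinearMap.id := by
    apply TensorProduct.ext'
    intro z x
    rw [LinearMap.sum_apply]
    have h2 : ∀ g : G, ((Z ⊗ P).ρ g ∘ₗ (LinearMap.lTensor Z.V θ) ∘ₗ (Z ⊗ P).ρ g⁻¹) (z ⊗ₜ x) =
        z ⊗ₜ (P.ρ g (θ (P.ρ g⁻¹ x))) := by
      intro g
      change (Z.ρ g (Z.ρ g⁻¹ z)) ⊗ₜ (P.ρ g (θ (P.ρ g⁻¹ x))) = _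
      rw [← Module.End.mul_apply (Z.ρ g), ← map_mul]
      simp
    rw [Finset.sum_congr rfl (fun g _ => h2 g), ← TensorProduct.tmul_sum, hθ]
    rfl
  rw [h1]
  rfl

end

end Pool.Agent.Helper1_Core
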