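import Pool.Agent.Helper1_Core.Fix

/-!
Splitting off the free part of a module over a finite `p`-group; the core dimension is `rr`.
-/

set_option autoImplicit false
open CategoryTheory CategoryTheory.MonoidalCategory CategoryTheory.Limits

namespace Pool.Agent.Helper1_Core

noncomputable section

variable {k : Type} [Field k] {G : Type} [Group G]

lemma iso_of_bij {A B : Rep.{0} k G} (f : A ⟶ B) (hf : Function.Bijective f.hom) : Nonempty (A ≅ B) := by
  have _h1 : Epi f := (Rep.epi_iff_surjective f).2 hf.2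
  have _h2 : Mono f := (Rep.mono_iff_injective f).2 hf.1
  have _h3 : IsIso f := isIso_of_mono_of_epi f
  exact ⟨asIso f⟩

/-- the biproduct is the concrete direct sum -/
lemma biprod_iso (X Y : Rep.{0} k G) : Nonempty (X ⊞ Y ≅ dsum X Y) := by
  refine ⟨{ hom := biprod.desc (Rep.ofHom (.inl k X.ρ Y.ρ)) (Rep.ofHom (.inr k X.ρ Y.ρ))
            inv := Rep.ofHom (.fst k X.ρ Y.ρ) ≫ biprod.inl + Rep.ofHom (.snd k X.ρ Y.ρ) ≫ biprod.inr
            hom_inv_id := ?_, inv_hom_id := ?_ }⟩
  · apply biprod.hom_ext'
    · rw [← Category.assoc, biprod.inl_desc, Preadditive.comp_add, ← Category.assoc, ← Category.assoc]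
      have h1 : (Rep.ofHom (.inl k X.ρ Y.ρ) : X ⟶ dsum X Y) ≫ Rep.ofHom (.fst k X.ρ Y.ρ) = 𝟙 X := by
        ext1; simp
      have h2 : (Rep.ofHom (.inl k X.ρ Y.ρ) : X ⟶ dsum X Y) ≫ Rep.ofHom (.snd k X.ρ Y.ρ) = 0 := by
        ext1; simp
      rw [h1, h2]; simp
    · rw [← Category.assoc, biprod.inr_desc, Preadditive.comp_add, ← Category.assoc, ← Category.assoc]
      have h1 : (Rep.ofHom (.inr k X.ρ Y.ρ) : Y ⟶ dsum X Y) ≫ Rep.ofHom (.fst k X.ρ Y.ρ) = 0 := by
        ext1; simp
      have h2 : (Rep.ofHom (.inr k X.ρ Y.ρ) : Y ⟶ dsum X Y) ≫ Rep.ofHom (.snd k X.ρ Y.ρ) = 𝟙 Y := by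
        ext1; simp
      rw [h1, h2]; simp
  · rw [Preadditive.add_comp, Category.assoc, Category.assoc, biprod.inl_desc, biprod.inr_desc]
    ext1
    simp [Rep.add_hom]

/-- functions `G → W` with the left translation action -/
def freeRho (k : Type) [Field k] (G : Type) [Group G] (W : Type) [AddCommGroup W] [Module k W] :
    Representation k G (G → W) where
  toFun g :=
    { toFun := fun φ h => φ (g⁻¹ * h)
      map_add' := fun _ _ => rfl
      map_smul' := fun _ _ => rfl }
  map_one' := by
    apply LinearMap.ext; intro φ; funext h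
    change φ (1⁻¹ * h) = φ h
    simp
  map_mul' g g' := by
    apply LinearMap.ext; intro φ; funext h
    change φ ((g * g')⁻¹ * h) = φ (g'⁻¹ * (g⁻¹ * h))
    simp [mul_assoc]

/-- the free module on `W` -/
abbrev Fr (k : Type) [Field k] (G : Type) [Group G] (W : Type) [AddCommGroup W] [Module k W] : Rep.{0} k G :=
  Rep.of (freeRho k G W)

lemma Fr_apply {W : Type} [AddCommGroup W] [Module k W] (g : G) (φ : G → W) (h : G) :
    ((Fr k G W).ρ g φ : G → W) h = φ (g⁻¹ * h) := rfl

variable [Fintype G]

lemma HP_Fr (W : Type) [AddCommGroup W] [Module k W] : HP (Fr k G W) := by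
  classical
  refine ⟨{ toFun := fun φ : G → W => (Pi.single (1 : G) (φ 1) : G → W)
            map_add' := fun x y => by
              change (Pi.single (1 : G) ((x + y : G → W) 1) : G → W) = _
              rw [Pi.add_apply, Pi.single_add]
            map_smul' := fun c x => by
              change (Pi.single (1 : G) ((c • x : G → W) 1) : G → W) = _
              rw [Pi.smul_apply, Pi.single_smul]; rfl }, ?_⟩
  intro φ
  funext h
  change (∑ g : G, (Fr k G W).ρ g (Pi.single (1 : G) (((Fr k G W).ρ g⁻¹ φ : G → W) 1) : G → W) : G → W) h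
    = (φ : G → W) h
  rw [Finset.sum_apply]
  rw [Finset.sum_eq_single h]
  · rw [Fr_apply, Fr_apply]; simp
  · intro g _ hg
    rw [Fr_apply]
    rw [Pi.single_eq_of_ne]
    intro h1
    apply hg
    have := inv_mul_eq_one.1 h1
    exact this
  · simp

lemma norm_Fr (W : Type) [AddCommGroup W] [Module k W] (φ : G → W) (h : G) :
    ((Fr k G W).ρ.norm φ : G → W) h = ∑ g : G, φ g := by
  rw [norm_apply']
  change (∑ g : G, (Fr k G W).ρ g φ : G → W) h = _
  rw [Finset.sum_apply]
  exact Fintype.sum_equiv ((Equiv.inv G).trans (Equiv.mulRight h)) _ _ (fun g => rfl)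

lemma finrank_norm_Fr (W : Type) [AddCommGroup W] [Module k W] [FiniteDimensional k W] :
    Module.finrank k (LinearMap.range (Fr k G W).ρ.norm) = Module.finrank k W := by
  classical
  let c : W →ₗ[k] (G → W) :=
    { toFun := fun w _ => w
      map_add' := fun _ _ => rfl
      map_smul' := fun _ _ => rfl }
  have hc : Function.Injective c := by
    intro a b hab
    exact congrFun hab 1
  have h1 : LinearMap.range (Fr k G W).ρ.norm = LinearMap.range c := by
    ext φ
    constructor
    · rintro ⟨ψ, rfl⟩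
      refine ⟨∑ g, (ψ : G → W) g, ?_⟩
      funext h
      rw [norm_Fr]; rfl
    · rintro ⟨w, rfl⟩
      refine ⟨(Pi.single (1 : G) w : G → W), ?_⟩
      funext h
      rw [norm_Fr]
      simp [c]
  rw [h1]
  exact LinearMap.finrank_range_of_inj hc

lemma rr_Fr (W : Type) [AddCommGroup W] [Module k W] [FiniteDimensional k W] : rr (Fr k G W) = 0 := by
  unfold rr
  rw [finrank_norm_Fr]
  have : Module.finrank k (Fr k G W).V = Fintype.card G * Module.finrank k W := by
    change Module.finrank k (G → W) = _
    rw [Module.finrank_pi_fintype]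
    simp
  rw [this]
  push_cast
  ring

/-- A module over a `p`-group splits off a free module of rank the rank of the norm. -/
lemma exists_split {p : ℕ} [Fact p.Prime] [CharP k p] (hG : IsPGroup p G) (X : Rep.{0} k G)
    [FiniteDimensional k X.V] :
    ∃ (N : Rep.{0} k G) (W : Type) (_ : AddCommGroup W) (_ : Module k W), FiniteDimensional k N.V ∧
      FiniteDimensional k W ∧ Nonempty (X ≅ dsum N (Fr k G W)) ∧
      Module.finrank k W = Module.finrank k (LinearMap.range X.ρ.norm) := by
  classical
  let W := LinearMap.range X.ρ.norm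
  obtain ⟨s, hs⟩ : ∃ s : W →ₗ[k] X.V, X.ρ.norm.rangeRestrict ∘ₗ s = LinearMap.id :=
    LinearMap.exists_rightInverse_of_surjective _ (LinearMap.range_rangeRestrict _)
  obtain ⟨f, hf⟩ : ∃ f : X.V →ₗ[k] W, f ∘ₗ W.subtype = LinearMap.id :=
    LinearMap.exists_leftInverse_of_injective _ (Submodule.ker_subtype _)
  have hs' : ∀ w : W, X.ρ.norm (s w) = w.1 := fun w =>
    congrArg Subtype.val (LinearMap.congr_fun hs w)
  have hf' : ∀ w : W, f w.1 = w := fun w => LinearMap.congr_fun hf w
  -- the two maps
  let ι : (G → W) →ₗ[k] X.V :=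
    { toFun := fun φ => ∑ g, X.ρ g (s (φ g))
      map_add' := fun a b => by simp [Finset.sum_add_distrib]
      map_smul' := fun c a => by simp [Finset.smul_sum] }
  let π : X.V →ₗ[k] (G → W) :=
    { toFun := fun y g => f (X.ρ g⁻¹ y)
      map_add' := fun a b => by funext g; simp
      map_smul' := fun c a => by funext g; simp }
  have hι : ∀ φ : G → W, ι φ = ∑ g, X.ρ g (s (φ g)) := fun _ => rfl
  have hπ : ∀ y g, π y g = f (X.ρ g⁻¹ y) := fun _ _ => rfl
  have hιe : ∀ g (φ : G → W), ι (freeRho k G W g φ) = X.ρ g (ι φ) := by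
    intro g φ
    rw [hι, hι, map_sum]
    refine Fintype.sum_equiv (Equiv.mulLeft g⁻¹) _ _ (fun h => ?_)
    change X.ρ h (s (φ (g⁻¹ * h))) = X.ρ g (X.ρ (g⁻¹ * h) (s (φ (g⁻¹ * h))))
    rw [← Module.End.mul_apply, ← map_mul]
    simp
  have hπe : ∀ g y, π (X.ρ g y) = freeRho k G W g (π y) := by
    intro g y
    funext h
    change f (X.ρ h⁻¹ (X.ρ g y)) = f (X.ρ (g⁻¹ * h)⁻¹ y)
    rw [← Module.End.mul_apply, ← map_mul]
    simp
  have hinj : Function.Injective (π ∘ₗ ι) := by
    rw [← LinearMap.ker_eq_bot]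
    by_contra hne
    obtain ⟨φ, hφ, hφ0, hφf⟩ := exists_fixed hG (Fr k G W) (LinearMap.ker (π ∘ₗ ι))
      (by
        intro g x hx
        rw [LinearMap.mem_ker] at hx ⊢
        change π (ι (freeRho k G W g x)) = 0
        rw [hιe, hπe]
        change freeRho k G W g ((π ∘ₗ ι) x) = 0
        rw [hx, map_zero]) hne
    have hconst : ∀ g, (φ : G → W) g = (φ : G → W) 1 := by
      intro g
      have := congrFun (hφf g) g
      rw [Fr_apply] at this
      rw [← this]; simp
    apply hφ0
    have h1 : ι φ = ((φ : G → W) 1).1 := by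
      rw [hι]
      have : ∀ g, X.ρ g (s ((φ : G → W) g)) = X.ρ g (s ((φ : G → W) 1)) := fun g => by rw [hconst g]
      rw [Finset.sum_congr rfl (fun g _ => this g), ← norm_apply', hs']
    have h2 : π (ι φ) = 0 := hφ
    have h3 := congrFun h2 1
    rw [hπ, h1] at h3
    simp only [inv_one, map_one, Module.End.one_apply] at h3
    rw [hf'] at h3
    funext g
    rw [hconst g, h3]; rfl
  let N : Submodule k X.V := LinearMap.ker π
  have hN : ∀ g, N ≤ N.comap (X.ρ g) := by
    intro g x hx
    rw [Submodule.mem_comap, LinearMap.mem_ker, hπe]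
    rw [LinearMap.mem_ker] at hx
    rw [hx, map_zero]
  refine ⟨X.subrepresentation N hN, W, inferInstance, inferInstance, ?_, ?_, ?_, rfl⟩
  · change FiniteDimensional k N
    infer_instance
  · infer_instance
  · let F : (X.subrepresentation N hN).V × (G → W) →ₗ[k] X.V := LinearMap.coprod N.subtype ι
    have hF : ∀ a, F a = a.1.1 + ι a.2 := fun a => rfl
    have hsurj : Function.Surjective (π ∘ₗ ι) := LinearMap.injective_iff_surjective.1 hinj
    have hFb : Function.Bijective F := by
      constructor
      · rw [injective_iff_map_eq_zero]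
        rintro ⟨n, φ⟩ h
        rw [hF] at h
        simp only at h
        have hn : π n.1 = 0 := n.2
        have h1 : π (ι φ) = 0 := by
          have := congrArg π h
          rw [map_add, hn, map_zero, zero_add] at this
          exact this
        have h2 : φ = 0 := hinj (by rw [map_zero]; exact h1)
        subst h2
        rw [map_zero, add_zero] at h
        have : n = 0 := Subtype.ext h
        rw [this]; rfl
      · intro x
        obtain ⟨φ, hφ⟩ := hsurj (π x)
        have : x - ι φ ∈ N := by
          rw [LinearMap.mem_ker, map_sub, sub_eq_zero]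
          exact hφ.symm
        exact ⟨(⟨x - ι φ, this⟩, φ), by rw [hF]; simp⟩
    let Fh : dsum (X.subrepresentation N hN) (Fr k G W) ⟶ X :=
      Rep.ofHom ⟨F, fun g => by
        apply LinearMap.ext
        rintro ⟨n, φ⟩
        change (X.ρ g n.1) + ι (freeRho k G W g φ) = X.ρ g (n.1 + ι φ)
        rw [hιe, map_add]⟩
    obtain ⟨e⟩ := iso_of_bij Fh hFb
    exact ⟨e.symm⟩

end

end Pool.Agent.Helper1_Core
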