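import Pool.Agent.Helper1_Core.Shift

/-!
The syzygies of the trivial module over the Klein four group, as Kronecker modules.
-/

set_option autoImplicit false
open CategoryTheory CategoryTheory.MonoidalCategory CategoryTheory.Limits

namespace Pool.Agent.Helper1_Core

noncomputable section

/-- the Klein four group -/
abbrev V4 := Multiplicative (ZMod 2 × ZMod 2)

/-- the field with two elements -/
abbrev F2 := ZMod 2

lemma sum4 {M : Type} [AddCommMonoid M] (F : V4 → M) :
    ∑ g : V4, F g = F (Multiplicative.ofAdd (0, 0)) + F (Multiplicative.ofAdd (0, 1)) +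
      (F (Multiplicative.ofAdd (1, 0)) + F (Multiplicative.ofAdd (1, 1))) := by
  have h1 : ∑ g : V4, F g = ∑ a : ZMod 2 × ZMod 2, F (Multiplicative.ofAdd a) :=
    Fintype.sum_equiv Multiplicative.toAdd _ _ (fun _ => rfl)
  rw [h1, Fintype.sum_prod_type]
  have h2 : ∀ f : ZMod 2 → M, ∑ a : ZMod 2, f a = f 0 + f 1 := fun f => Fin.sum_univ_two f
  rw [h2, h2, h2]

lemma V4_isPGroup : IsPGroup 2 V4 := by
  apply IsPGroup.of_card (n := 2)
  simp

lemma F2_add_self {V : Type} [AddCommGroup V] [Module F2 V] (v : V) : v + v = 0 := by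
  have : v + v = (2 : F2) • v := by rw [two_smul]
  rw [this]
  have h2 : (2 : F2) = 0 := by decide
  rw [h2, zero_smul]

lemma F2_add_add {V : Type} [AddCommGroup V] [Module F2 V] (v w : V) : v + (v + w) = w := by
  rw [← add_assoc, F2_add_self, zero_add]

section kron

variable {U S : Type} [AddCommGroup U] [Module F2 U] [AddCommGroup S] [Module F2 S]

/-- the Kronecker module -/
def krRho (α β : U →ₗ[F2] S) : Representation F2 V4 (U × S) where
  toFun g :=
    { toFun := fun x => (x.1, x.2 + ((Multiplicative.toAdd g).1 • α x.1 + (Multiplicative.toAdd g).2 • β x.1))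
      map_add' := fun x y => by
        ext
        · rfl
        · simp only [Prod.snd_add, Prod.fst_add, map_add, smul_add]
          abel
      map_smul' := fun c x => by
        ext
        · rfl
        · simp only [Prod.smul_snd, Prod.smul_fst, map_smul, smul_add, RingHom.id_apply]
          rw [smul_comm _ c, smul_comm _ c] }
  map_one' := by
    apply LinearMap.ext
    rintro ⟨u, s⟩
    change (u, s + ((0 : F2) • α u + (0 : F2) • β u)) = (u, s)
    simp
  map_mul' g h := by
    apply LinearMap.ext
    rintro ⟨u, s⟩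
    change (u, s + (((Multiplicative.toAdd g).1 + (Multiplicative.toAdd h).1) • α u +
        ((Multiplicative.toAdd g).2 + (Multiplicative.toAdd h).2) • β u)) =
      (u, (s + ((Multiplicative.toAdd h).1 • α u + (Multiplicative.toAdd h).2 • β u)) +
        ((Multiplicative.toAdd g).1 • α u + (Multiplicative.toAdd g).2 • β u))
    rw [Prod.mk.injEq]
    refine ⟨rfl, ?_⟩
    rw [add_smul, add_smul]
    abel

/-- the Kronecker module as an object -/
abbrev Kr (α β : U →ₗ[F2] S) : Rep.{0} F2 V4 := Rep.of (krRho α β)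

lemma Kr_apply (α β : U →ₗ[F2] S) (g : V4) (u : U) (s : S) :
    (Kr α β).ρ g (u, s) = (u, s + ((Multiplicative.toAdd g).1 • α u + (Multiplicative.toAdd g).2 • β u)) := rfl

lemma Kr_norm (α β : U →ₗ[F2] S) (x : U × S) : (Kr α β).ρ.norm x = 0 := by
  obtain ⟨u, s⟩ := x
  rw [norm_apply', sum4]
  rw [Kr_apply, Kr_apply, Kr_apply, Kr_apply]
  simp only [toAdd_ofAdd, zero_smul, one_smul, add_zero, zero_add]
  rw [Prod.ext_iff]
  constructor
  · change u + u + (u + u) = 0
    rw [F2_add_self]
  · change s + (s + β u) + ((s + α u) + (s + (α u + β u))) = 0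
    have : s + (s + β u) + ((s + α u) + (s + (α u + β u))) =
      (s + s) + (s + s) + ((α u + α u) + (β u + β u)) := by abel
    rw [this]
    simp [F2_add_self]

lemma rr_of_norm_zero (X : Rep.{0} F2 V4) (h : ∀ x, X.ρ.norm x = 0) : rr X = Module.finrank F2 X.V := by
  unfold rr
  have : X.ρ.norm = 0 := LinearMap.ext h
  rw [this, LinearMap.range_zero, finrank_bot]
  simp

/-- the space of generators of the syzygy -/
abbrev syU (α β : U →ₗ[F2] S) : Submodule F2 (U × U) :=
  LinearMap.ker (α ∘ₗ LinearMap.fst F2 U U + β ∘ₗ LinearMap.snd F2 U U)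

/-- first structure map of the syzygy -/
abbrev syA (α β : U →ₗ[F2] S) : syU α β →ₗ[F2] U := LinearMap.snd F2 U U ∘ₗ (syU α β).subtype

/-- second structure map of the syzygy -/
abbrev syB (α β : U →ₗ[F2] S) : syU α β →ₗ[F2] U := LinearMap.fst F2 U U ∘ₗ (syU α β).subtype

lemma mem_syU (α β : U →ₗ[F2] S) (b c : U) : (b, c) ∈ syU α β ↔ α b + β c = 0 := by
  rw [LinearMap.mem_ker]
  rfl

lemma syA_surj (α β : U →ₗ[F2] S) (hα : Function.Surjective α) : Function.Surjective (syA α β) := by
  intro c
  obtain ⟨b, hb⟩ := hα (β c)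
  refine ⟨⟨(b, c), ?_⟩, rfl⟩
  rw [mem_syU, hb, F2_add_self]

lemma kr_ses (α β : U →ₗ[F2] S) (hα : Function.Surjective α) :
    SES (Kr (syA α β) (syB α β)) (Fr F2 V4 U) (Kr α β) := by
  classical
  let i : (syU α β × U) →ₗ[F2] (V4 → U) :=
    { toFun := fun x h => x.2 + ((1 + (Multiplicative.toAdd h).2) • x.1.1.1 +
        (1 + (Multiplicative.toAdd h).1) • x.1.1.2)
      map_add' := fun x y => by
        funext h
        simp only [Prod.snd_add, Prod.fst_add, Submodule.coe_add, smul_add, Pi.add_apply]
        abel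
      map_smul' := fun c x => by
        funext h
        simp only [Prod.smul_snd, Prod.smul_fst, Submodule.coe_smul, Pi.smul_apply, smul_add, RingHom.id_apply]
        rw [smul_comm _ c, smul_comm _ c] }
  let f : (V4 → U) →ₗ[F2] (U × S) :=
    { toFun := fun φ => (∑ h, φ h, ∑ h : V4, ((Multiplicative.toAdd h).1 • α (φ h) +
        (Multiplicative.toAdd h).2 • β (φ h)))
      map_add' := fun x y => by
        ext
        · simp [Finset.sum_add_distrib]
        · change (∑ h : V4, ((Multiplicative.toAdd h).1 • α (x h + y h) +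
            (Multiplicative.toAdd h).2 • β (x h + y h))) = (∑ h : V4, ((Multiplicative.toAdd h).1 • α (x h) +
            (Multiplicative.toAdd h).2 • β (x h))) + (∑ h : V4, ((Multiplicative.toAdd h).1 • α (y h) +
            (Multiplicative.toAdd h).2 • β (y h)))
          rw [← Finset.sum_add_distrib]
          refine Finset.sum_congr rfl fun h _ => ?_
          rw [map_add, map_add, smul_add, smul_add]
          abel
      map_smul' := fun c x => by
        ext
        · simp [Finset.smul_sum]
        · change (∑ h : V4, ((Multiplicative.toAdd h).1 • α (c • x h) +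
            (Multiplicative.toAdd h).2 • β (c • x h))) = c • (∑ h : V4, ((Multiplicative.toAdd h).1 • α (x h) +
            (Multiplicative.toAdd h).2 • β (x h)))
          rw [Finset.smul_sum]
          refine Finset.sum_congr rfl fun h _ => ?_
          rw [map_smul, map_smul, smul_add, smul_comm _ c, smul_comm _ c] }
  have hi : ∀ (x : syU α β) (d : U) (h : V4), i (x, d) h = d + ((1 + (Multiplicative.toAdd h).2) • x.1.1 +
        (1 + (Multiplicative.toAdd h).1) • x.1.2) := fun _ _ _ => rfl
  have hf1 : ∀ φ : V4 → U, (f φ).1 = ∑ h, φ h := fun _ => rfl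
  have hf2 : ∀ φ : V4 → U, (f φ).2 = ∑ h : V4, ((Multiplicative.toAdd h).1 • α (φ h) +
        (Multiplicative.toAdd h).2 • β (φ h)) := fun _ => rfl
  have h11 : (1 : F2) + 1 = 0 := by decide
  refine ⟨Rep.ofHom ⟨i, fun g => ?_⟩, Rep.ofHom ⟨f, fun g => ?_⟩, ?_, ?_, ?_⟩
  · apply LinearMap.ext
    rintro ⟨⟨⟨b, c⟩, hbc⟩, d⟩
    funext h
    change (d + ((Multiplicative.toAdd g).1 • c + (Multiplicative.toAdd g).2 • b)) +
      ((1 + (Multiplicative.toAdd h).2) • b + (1 + (Multiplicative.toAdd h).1) • c) =
      d + ((1 + (-(Multiplicative.toAdd g).2 + (Multiplicative.toAdd h).2)) • b +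
        (1 + (-(Multiplicative.toAdd g).1 + (Multiplicative.toAdd h).1)) • c)
    have hneg : ∀ a : F2, -a = a := by decide
    rw [hneg, hneg]
    simp only [add_smul]
    abel
  · apply LinearMap.ext
    intro φ
    have key : ∀ (F : V4 → U), ∑ h : V4, F (g⁻¹ * h) = ∑ h, F h := fun F =>
      Fintype.sum_equiv (Equiv.mulLeft g⁻¹) _ _ (fun h => rfl)
    have hred : ∀ F : V4 → S, ∑ h : V4, F h = ∑ h : V4, F (g * h) := fun F =>
      (Fintype.sum_equiv (Equiv.mulLeft g) _ _ (fun h => rfl)).symm
    rw [Prod.ext_iff]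
    constructor
    · change ∑ h : V4, (φ : V4 → U) (g⁻¹ * h) = ∑ h, (φ : V4 → U) h
      exact key _
    · change (∑ h : V4, ((Multiplicative.toAdd h).1 • α ((φ : V4 → U) (g⁻¹ * h)) +
        (Multiplicative.toAdd h).2 • β ((φ : V4 → U) (g⁻¹ * h)))) =
        (∑ h : V4, ((Multiplicative.toAdd h).1 • α ((φ : V4 → U) h) +
        (Multiplicative.toAdd h).2 • β ((φ : V4 → U) h))) +
        ((Multiplicative.toAdd g).1 • α (∑ h, (φ : V4 → U) h) +
          (Multiplicative.toAdd g).2 • β (∑ h, (φ : V4 → U) h))
      rw [hred, map_sum, map_sum, Finset.smul_sum, Finset.smul_sum, ← Finset.sum_add_distrib,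
        ← Finset.sum_add_distrib]
      refine Finset.sum_congr rfl fun h _ => ?_
      rw [inv_mul_cancel_left]
      change ((Multiplicative.toAdd g).1 + (Multiplicative.toAdd h).1) • _ +
        ((Multiplicative.toAdd g).2 + (Multiplicative.toAdd h).2) • _ = _
      rw [add_smul, add_smul]
      abel
  · change Function.Injective i
    rw [injective_iff_map_eq_zero]
    rintro ⟨⟨⟨b, c⟩, hbc⟩, d⟩ h
    have e1 := congrFun h (Multiplicative.ofAdd (1, 1))
    have e2 := congrFun h (Multiplicative.ofAdd (0, 1))
    have e3 := congrFun h (Multiplicative.ofAdd (1, 0))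
    rw [hi] at e1 e2 e3
    simp only [toAdd_ofAdd, h11, zero_smul, add_zero, one_smul, zero_add, Pi.zero_apply] at e1 e2 e3
    subst e1
    rw [zero_add] at e2 e3
    subst e2 e3
    rfl
  · change Function.Surjective f
    rintro ⟨u, s⟩
    obtain ⟨b, hb⟩ := hα s
    refine ⟨fun h => if h = Multiplicative.ofAdd (0, 0) then u + b else
      if h = Multiplicative.ofAdd (1, 0) then b else 0, ?_⟩
    have d1 : (Multiplicative.ofAdd ((0 : ZMod 2), (1 : ZMod 2)) : V4) ≠ Multiplicative.ofAdd (0, 0) := by decide
    have d2 : (Multiplicative.ofAdd ((0 : ZMod 2), (1 : ZMod 2)) : V4) ≠ Multiplicative.ofAdd (1, 0) := by decide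
    have d3 : (Multiplicative.ofAdd ((1 : ZMod 2), (0 : ZMod 2)) : V4) ≠ Multiplicative.ofAdd (0, 0) := by decide
    have d4 : (Multiplicative.ofAdd ((1 : ZMod 2), (1 : ZMod 2)) : V4) ≠ Multiplicative.ofAdd (0, 0) := by decide
    have d5 : (Multiplicative.ofAdd ((1 : ZMod 2), (1 : ZMod 2)) : V4) ≠ Multiplicative.ofAdd (1, 0) := by decide
    rw [Prod.ext_iff]
    constructor
    · rw [hf1, sum4]
      simp only [d1, d2, d3, d4, d5, if_true, if_false]
      rw [add_zero, add_zero, add_assoc, F2_add_self, add_zero]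
    · rw [hf2, sum4]
      simp only [d1, d2, d3, d4, d5, if_true, if_false, toAdd_ofAdd, map_zero, zero_smul, smul_zero,
        one_smul, add_zero, zero_add]
      exact hb
  · intro φ
    change f φ = 0 ↔ φ ∈ Set.range i
    constructor
    · intro h
      have e1 : ∑ h, (φ : V4 → U) h = 0 := congrArg Prod.fst h
      have e2 : (∑ h : V4, ((Multiplicative.toAdd h).1 • α ((φ : V4 → U) h) +
        (Multiplicative.toAdd h).2 • β ((φ : V4 → U) h))) = 0 := congrArg Prod.snd h
      rw [sum4] at e1 e2
      simp only [toAdd_ofAdd, zero_smul, one_smul, add_zero, zero_add] at e2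
      set p00 := (φ : V4 → U) (Multiplicative.ofAdd (0, 0))
      set p01 := (φ : V4 → U) (Multiplicative.ofAdd (0, 1))
      set p10 := (φ : V4 → U) (Multiplicative.ofAdd (1, 0))
      set p11 := (φ : V4 → U) (Multiplicative.ofAdd (1, 1))
      have hmem : ((p10 + p11, p01 + p11) : U × U) ∈ syU α β := by
        rw [mem_syU, map_add, map_add]
        have : α p10 + α p11 + (β p01 + β p11) = β p01 + (α p10 + (α p11 + β p11)) := by abel
        rw [this]
        exact e2
      refine ⟨(⟨(p10 + p11, p01 + p11), hmem⟩, p11), ?_⟩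
      funext h
      rw [hi]
      have hcases : ∀ h : V4, h = Multiplicative.ofAdd (0, 0) ∨ h = Multiplicative.ofAdd (0, 1) ∨
        h = Multiplicative.ofAdd (1, 0) ∨ h = Multiplicative.ofAdd (1, 1) := by decide
      rcases hcases h with rfl | rfl | rfl | rfl
      · simp only [toAdd_ofAdd, add_zero, one_smul]
        change p11 + ((p10 + p11) + (p01 + p11)) = p00
        have e3 : p00 = p01 + (p10 + p11) := by
          have : p00 + (p01 + (p10 + p11)) = 0 := by rw [← add_assoc]; exact e1
          calc p00 = p00 + ((p01 + (p10 + p11)) + (p01 + (p10 + p11))) := by rw [F2_add_self, add_zero]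
            _ = (p00 + (p01 + (p10 + p11))) + (p01 + (p10 + p11)) := by abel
            _ = _ := by rw [this, zero_add]
        rw [e3]
        have : p11 + ((p10 + p11) + (p01 + p11)) = (p11 + p11) + (p01 + (p10 + p11)) := by abel
        rw [this, F2_add_self, zero_add]
      · simp only [toAdd_ofAdd, add_zero, one_smul, h11, zero_smul, zero_add]
        change p11 + (p01 + p11) = p01
        have : p11 + (p01 + p11) = p01 + (p11 + p11) := by abel
        rw [this, F2_add_self, add_zero]
      · simp only [toAdd_ofAdd, add_zero, one_smul, h11, zero_smul]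
        change p11 + (p10 + p11) = p10
        have : p11 + (p10 + p11) = p10 + (p11 + p11) := by abel
        rw [this, F2_add_self, add_zero]
      · simp only [toAdd_ofAdd, add_zero, h11, zero_smul]
        rfl
    · rintro ⟨⟨⟨⟨b, c⟩, hbc⟩, d⟩, rfl⟩
      rw [mem_syU] at hbc
      rw [Prod.ext_iff]
      constructor
      · rw [hf1, sum4]
        rw [hi, hi, hi, hi]
        simp only [toAdd_ofAdd, add_zero, one_smul, h11, zero_smul, zero_add]
        change d + (b + c) + (d + c) + ((d + b) + d) = 0
        have : d + (b + c) + (d + c) + ((d + b) + d) = (d + d) + (d + d) + ((b + b) + (c + c)) := by abel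
        rw [this]
        simp [F2_add_self]
      · rw [hf2, sum4]
        rw [hi, hi, hi, hi]
        simp only [toAdd_ofAdd, add_zero, one_smul, h11, zero_smul, zero_add]
        change β (d + c) + (α (d + b) + (α d + β d)) = 0
        rw [map_add, map_add]
        have : β d + β c + (α d + α b + (α d + β d)) = (α b + β c) + ((α d + α d) + (β d + β d)) := by abel
        rw [this, hbc]
        simp [F2_add_self]

end kron

end

end Pool.Agent.Helper1_Core
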